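import Pool.Agent.helper4.PDM.Op
import Pool.Agent.helper14.EX1.CheN

/-!
# PDM-Badp: most words are good

`s v = Gw v / 2 ^ v.sum`, `s (k :: v) = tk k / 2 ^ k + 3 / 2 ^ k * s v`, `|tk k / 2 ^ k| ≤ 1` (`tk_abs`), so
`sqrt |s (k :: v)| ≤ 1 + sqrt (3 / 2 ^ k) sqrt |s v|`; `M_n = ∑_{v ∈ lw K n} (1/2) ^ v.sum sqrt |s v|` satisfies
`M_{n+1} ≤ 1 + κ M_n`, `κ = ∑_{k ≥ 1} (1/2) ^ k sqrt (3 / 2 ^ k) ≤ 0.96` (`sqrt (3/2) ≤ 1.2248`, `sqrt (3/4) ≤ 0.8661`,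
`sqrt (3/8) ≤ 0.6124`, `sqrt (3/16) ≤ 0.4331`, then `≤ 0.3063`: `0.6124 + 0.2166 + 0.0766 + 0.0271 + 0.0192 = 0.952`), so
`M_n ≤ 25`; Markov; `cheN`.
-/

namespace Pool.Agent.helper4.PDM

open Finset Pool.Agent.helper14.EX1

theorem Badp_sqrt_le {x y : ℝ} (hy : 0 ≤ y) (h : x ≤ y ^ 2) : Real.sqrt x ≤ y := by
  calc Real.sqrt x ≤ Real.sqrt (y ^ 2) := Real.sqrt_le_sqrt h
    _ = y := Real.sqrt_sq hy

theorem Badp_ktail {K : ℕ} (hK : 4 ≤ K) :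
    ∑ k ∈ Icc 1 K, (1 / 2 : ℝ) ^ k * Real.sqrt (3 / 2 ^ k) ≤
      0.93254375 + 0.3063 * (1 / 16 - (1 / 2) ^ K) := by
  induction K, hK using Nat.le_induction with
  | base =>
    have e : ∑ k ∈ Icc 1 4, (1 / 2 : ℝ) ^ k * Real.sqrt (3 / 2 ^ k) =
        (1 / 2 : ℝ) ^ 1 * Real.sqrt (3 / 2 ^ 1) + (1 / 2 : ℝ) ^ 2 * Real.sqrt (3 / 2 ^ 2) +
        (1 / 2 : ℝ) ^ 3 * Real.sqrt (3 / 2 ^ 3) + (1 / 2 : ℝ) ^ 4 * Real.sqrt (3 / 2 ^ 4) := by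
      rw [show Icc 1 4 = ({1, 2, 3, 4} : Finset ℕ) by rfl]
      rw [sum_insert (by decide), sum_insert (by decide), sum_insert (by decide), sum_singleton]
      ring
    rw [e]
    have h1 : Real.sqrt (3 / 2 ^ 1) ≤ 1.2248 := Badp_sqrt_le (by norm_num) (by norm_num)
    have h2 : Real.sqrt (3 / 2 ^ 2) ≤ 0.8661 := Badp_sqrt_le (by norm_num) (by norm_num)
    have h3 : Real.sqrt (3 / 2 ^ 3) ≤ 0.6124 := Badp_sqrt_le (by norm_num) (by norm_num)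
    have h4 : Real.sqrt (3 / 2 ^ 4) ≤ 0.4331 := Badp_sqrt_le (by norm_num) (by norm_num)
    norm_num at h1 h2 h3 h4 ⊢
    linarith
  | succ K hK ih =>
    rw [← Finset.insert_Icc_right_eq_Icc_add_one (by omega), sum_insert (by simp)]
    have h5 : Real.sqrt (3 / 2 ^ (K + 1)) ≤ 0.3063 := by
      refine Badp_sqrt_le (by norm_num) ?_
      have h6 : (2 : ℝ) ^ 5 ≤ 2 ^ (K + 1) := pow_le_pow_right₀ (by norm_num) (by omega)
      have h7 : (3 : ℝ) / 2 ^ (K + 1) ≤ 3 / 2 ^ 5 :=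
        div_le_div_of_nonneg_left (by norm_num) (by norm_num) h6
      refine h7.trans ?_
      norm_num
    have h8 : (0 : ℝ) ≤ (1 / 2) ^ (K + 1) := by positivity
    have h9 : (1 / 2 : ℝ) ^ K = 2 * (1 / 2) ^ (K + 1) := by ring
    rw [h9] at ih
    nlinarith [mul_le_mul_of_nonneg_left h5 h8]

theorem Badp_kappa (K : ℕ) :
    ∑ k ∈ Icc 1 K, (1 / 2 : ℝ) ^ k * Real.sqrt (3 / 2 ^ k) ≤ 24 / 25 := by
  have h1 : ∑ k ∈ Icc 1 K, (1 / 2 : ℝ) ^ k * Real.sqrt (3 / 2 ^ k) ≤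
      ∑ k ∈ Icc 1 (max K 4), (1 / 2 : ℝ) ^ k * Real.sqrt (3 / 2 ^ k) := by
    apply sum_le_sum_of_subset_of_nonneg
    · exact Icc_subset_Icc_right (le_max_left K 4)
    · intro k _ _
      positivity
  have h2 := Badp_ktail (le_max_right K 4)
  have h3 : (0 : ℝ) ≤ (1 / 2) ^ (max K 4) := by positivity
  refine h1.trans (h2.trans ?_)
  generalize (1 / 2 : ℝ) ^ (max K 4) = y at h3
  linarith

theorem Badp_s_cons {k : ℕ} (hk : 1 ≤ k) (v : List ℕ) :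
    Real.sqrt (|(Gw (k :: v) : ℝ)| / 2 ^ (k :: v).sum) ≤
      1 + Real.sqrt (3 / 2 ^ k) * Real.sqrt (|(Gw v : ℝ)| / 2 ^ v.sum) := by
  have h2 : (0 : ℝ) < 2 ^ v.sum := by positivity
  have h3 : (0 : ℝ) < 2 ^ k := by positivity
  have e : (Gw (k :: v) : ℝ) = 2 ^ v.sum * (tk k : ℝ) + 3 * (Gw v : ℝ) := by
    simp only [Gw]
    push_cast
    ring
  have h4 : |(Gw (k :: v) : ℝ)| / 2 ^ (k :: v).sum ≤ 1 + 3 / 2 ^ k * (|(Gw v : ℝ)| / 2 ^ v.sum) := by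
    rw [e, List.sum_cons, pow_add, div_le_iff₀ (by positivity)]
    have h5 : |2 ^ v.sum * (tk k : ℝ) + 3 * (Gw v : ℝ)| ≤
        2 ^ v.sum * 2 ^ k + 3 * |(Gw v : ℝ)| := by
      refine (abs_add_le _ _).trans ?_
      rw [abs_mul, abs_mul, abs_of_pos h2, abs_of_pos (by norm_num : (0 : ℝ) < 3)]
      have := mul_le_mul_of_nonneg_left (tk_abs hk) h2.le
      linarith
    refine h5.trans (le_of_eq ?_)
    field_simp
  calc Real.sqrt (|(Gw (k :: v) : ℝ)| / 2 ^ (k :: v).sum)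
      ≤ Real.sqrt (1 + 3 / 2 ^ k * (|(Gw v : ℝ)| / 2 ^ v.sum)) := Real.sqrt_le_sqrt h4
    _ ≤ 1 + Real.sqrt (3 / 2 ^ k * (|(Gw v : ℝ)| / 2 ^ v.sum)) := by
        have q0 : 0 ≤ 3 / 2 ^ k * (|(Gw v : ℝ)| / 2 ^ v.sum) := by positivity
        refine Badp_sqrt_le (by positivity) ?_
        have q1 := Real.sq_sqrt q0
        have q2 := Real.sqrt_nonneg (3 / 2 ^ k * (|(Gw v : ℝ)| / 2 ^ v.sum))
        nlinarith
    _ = 1 + Real.sqrt (3 / 2 ^ k) * Real.sqrt (|(Gw v : ℝ)| / 2 ^ v.sum) := by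
        rw [Real.sqrt_mul (by positivity)]

theorem Badp_total (K n : ℕ) : ∑ v ∈ lw K n, (1 / 2 : ℝ) ^ v.sum ≤ 1 := by
  have h := CheN_sum (y := 1 / 2) (by norm_num) (by norm_num) K n
  norm_num at h ⊢
  exact h

theorem Badp_half (K : ℕ) : ∑ k ∈ Icc 1 K, (1 / 2 : ℝ) ^ k ≤ 1 := by
  have h := CheN_geo (y := 1 / 2) (by norm_num) (by norm_num) K
  norm_num at h ⊢
  exact h

theorem sqrt_moment (K n : ℕ) :
    ∑ v ∈ lw K n, (1 / 2 : ℝ) ^ v.sum * Real.sqrt (|(Gw v : ℝ)| / 2 ^ v.sum) ≤ 25 := by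
  induction n with
  | zero => simp [lw, Gw]
  | succ n ih =>
    rw [sum_lw_succ]
    have h1 : ∀ k ∈ Icc 1 K, ∑ v ∈ lw K n,
        (1 / 2 : ℝ) ^ (k :: v).sum * Real.sqrt (|(Gw (k :: v) : ℝ)| / 2 ^ (k :: v).sum) ≤
        (1 / 2 : ℝ) ^ k + ((1 / 2 : ℝ) ^ k * Real.sqrt (3 / 2 ^ k)) * 25 := by
      intro k hk
      rw [mem_Icc] at hk
      have hp : (0 : ℝ) ≤ (1 / 2) ^ k := by positivity
      calc ∑ v ∈ lw K n,
            (1 / 2 : ℝ) ^ (k :: v).sum * Real.sqrt (|(Gw (k :: v) : ℝ)| / 2 ^ (k :: v).sum)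
          ≤ ∑ v ∈ lw K n, ((1 / 2 : ℝ) ^ k * (1 / 2 : ℝ) ^ v.sum +
              ((1 / 2 : ℝ) ^ k * Real.sqrt (3 / 2 ^ k)) *
                ((1 / 2 : ℝ) ^ v.sum * Real.sqrt (|(Gw v : ℝ)| / 2 ^ v.sum))) := by
            refine sum_le_sum fun v _ => ?_
            have h3 : (0 : ℝ) ≤ (1 / 2 : ℝ) ^ (k :: v).sum := by positivity
            have := mul_le_mul_of_nonneg_left (Badp_s_cons hk.1 v) h3
            refine this.trans (le_of_eq ?_)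
            rw [List.sum_cons, pow_add]
            ring
        _ = (1 / 2 : ℝ) ^ k * ∑ v ∈ lw K n, (1 / 2 : ℝ) ^ v.sum +
              ((1 / 2 : ℝ) ^ k * Real.sqrt (3 / 2 ^ k)) *
                ∑ v ∈ lw K n, (1 / 2 : ℝ) ^ v.sum * Real.sqrt (|(Gw v : ℝ)| / 2 ^ v.sum) := by
            rw [sum_add_distrib, ← mul_sum, ← mul_sum]
        _ ≤ (1 / 2 : ℝ) ^ k + ((1 / 2 : ℝ) ^ k * Real.sqrt (3 / 2 ^ k)) * 25 := by
            have h4 := mul_le_mul_of_nonneg_left (Badp_total K n) hp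
            have h5 := mul_le_mul_of_nonneg_left ih
              (mul_nonneg hp (Real.sqrt_nonneg (3 / 2 ^ k)))
            linarith
    refine (sum_le_sum h1).trans ?_
    rw [sum_add_distrib, ← sum_mul]
    have h6 := Badp_kappa K
    have h7 := Badp_half K
    linarith

open Classical in
theorem bad_S {S : ℝ} (hS : 0 < S) (K n : ℕ) :
    pr ((lw K n).filter (fun v => ¬ |(Gw v : ℝ)| ≤ S * 2 ^ v.sum)) ≤ 25 / Real.sqrt S := by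
  have hs : 0 < Real.sqrt S := Real.sqrt_pos.2 hS
  rw [le_div_iff₀ hs]
  unfold pr
  rw [sum_mul]
  calc ∑ v ∈ (lw K n).filter (fun v => ¬ |(Gw v : ℝ)| ≤ S * 2 ^ v.sum),
        (1 / 2 : ℝ) ^ v.sum * Real.sqrt S
      ≤ ∑ v ∈ (lw K n).filter (fun v => ¬ |(Gw v : ℝ)| ≤ S * 2 ^ v.sum),
        (1 / 2 : ℝ) ^ v.sum * Real.sqrt (|(Gw v : ℝ)| / 2 ^ v.sum) := by
        refine sum_le_sum fun v hv => ?_
        have h1 := (mem_filter.1 hv).2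
        push Not at h1
        have h2 : S ≤ |(Gw v : ℝ)| / 2 ^ v.sum := by
          rw [le_div_iff₀ (by positivity)]
          exact h1.le
        exact mul_le_mul_of_nonneg_left (Real.sqrt_le_sqrt h2) (by positivity)
    _ ≤ ∑ v ∈ lw K n, (1 / 2 : ℝ) ^ v.sum * Real.sqrt (|(Gw v : ℝ)| / 2 ^ v.sum) := by
        apply sum_le_sum_of_subset_of_nonneg (filter_subset _ _)
        intro v _ _
        positivity
    _ ≤ 25 := sqrt_moment K n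

theorem bad_pr {ε : ℝ} (hε : 0 < ε) : ∃ ρ C : ℝ, 0 < ρ ∧ ρ < 1 ∧ 0 ≤ C ∧ ∀ (K n : ℕ) (S : ℝ), 0 < S →
    pr (lw K n \ Gd K n S ε) ≤ 25 / Real.sqrt S + C * ρ ^ n := by
  classical
  obtain ⟨ρ, C, h0, h1, hC, h⟩ := cheN hε
  refine ⟨ρ, C, h0, h1, hC, fun K n S hS => ?_⟩
  have h2 := bad_S hS K n
  have h3 := h K n
  have h4 : pr (lw K n \ Gd K n S ε) ≤
      pr ((lw K n).filter (fun v => ¬ |(Gw v : ℝ)| ≤ S * 2 ^ v.sum)) +
      ∑ v ∈ lw K n, (if ε * n < |(v.sum : ℝ) - 2 * n| then (1 / 2 : ℝ) ^ v.sum else 0) := by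
    unfold pr
    rw [← sum_filter]
    have h5 : lw K n \ Gd K n S ε ⊆
        (lw K n).filter (fun v => ¬ |(Gw v : ℝ)| ≤ S * 2 ^ v.sum) ∪
        (lw K n).filter (fun v => ε * n < |(v.sum : ℝ) - 2 * n|) := by
      intro v hv
      rw [mem_sdiff] at hv
      obtain ⟨hv1, hv2⟩ := hv
      rw [mem_union, mem_filter, mem_filter]
      by_cases hc : |(Gw v : ℝ)| ≤ S * 2 ^ v.sum
      · right
        refine ⟨hv1, ?_⟩
        by_contra hlt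
        rw [not_lt] at hlt
        exact hv2 (mem_filter.2 ⟨hv1, hc, hlt⟩)
      · exact Or.inl ⟨hv1, hc⟩
    refine (sum_le_sum_of_subset_of_nonneg h5 (fun v _ _ => by positivity)).trans ?_
    have h6 := sum_union_inter (s₁ := (lw K n).filter (fun v => ¬ |(Gw v : ℝ)| ≤ S * 2 ^ v.sum))
      (s₂ := (lw K n).filter (fun v => ε * n < |(v.sum : ℝ) - 2 * n|))
      (f := fun v => (1 / 2 : ℝ) ^ v.sum)
    have h7 : 0 ≤ ∑ v ∈ (lw K n).filter (fun v => ¬ |(Gw v : ℝ)| ≤ S * 2 ^ v.sum) ∩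
        (lw K n).filter (fun v => ε * n < |(v.sum : ℝ) - 2 * n|), (1 / 2 : ℝ) ^ v.sum :=
      sum_nonneg fun v _ => by positivity
    linarith
  linarith

end Pool.Agent.helper4.PDM
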