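import Pool.Agent.helper14.EX1.Defs

/-!
# PDM: fine-scale mixing of the backward `3x+1` tree (definitions)

Everything in the coordinates of EX1: words `v` (lists of letters `≥ 1`), `Ala x v` (allowed at `x`), `nd x v` (the end),
`Gw v`, `ww v = 3 ^ length / 2 ^ sum`, `lw K n` (words of length `n`, letters `1, …, K`), `avg`, `Per`.

Values in a normed space `E` with linear contractions `τ A` (`A` = sum of the word): `E = ℝ` gives the plain masses,
`E = Fin N → ℝ` with the shift gives the joint masses of the words with given sum.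
-/

namespace Pool.Agent.helper4.PDM

open Finset Pool.Agent.helper14.EX1

variable {E : Type} [NormedAddCommGroup E] [NormedSpace ℝ E]

/-- A semigroup of linear contractions indexed by the sum of the word. -/
structure Con (τ : ℕ → E →ₗ[ℝ] E) : Prop where
  norm : ∀ A v, ‖τ A v‖ ≤ ‖v‖
  zero : ∀ v, τ 0 v = v
  add : ∀ A B v, τ (A + B) v = τ A (τ B v)

/-- Period `3 ^ q`. -/
def PerV (q : ℕ) (h : ℤ → E) : Prop := ∀ x, h (x + 3 ^ q) = h x

/-- The mean over the digit `q` vanishes. -/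
def MeanZ (q : ℕ) (h : ℤ → E) : Prop := ∀ x, ∑ d ∈ range 3, h (x + 3 ^ q * (d : ℤ)) = 0

/-- The `L¹` norm over the residues modulo `3 ^ q`. -/
noncomputable def l1 (q : ℕ) (h : ℤ → E) : ℝ := avg q (fun x => ‖h x‖)

/-- The square of the `L²` norm over the residues modulo `3 ^ q`. -/
noncomputable def l2 (q : ℕ) (h : ℤ → E) : ℝ := avg q (fun x => ‖h x‖ ^ 2)

/-- The transfer operator of the words in `G`. -/
noncomputable def LG (τ : ℕ → E →ₗ[ℝ] E) (G : Finset (List ℕ)) (h : ℤ → E) (x : ℤ) : E :=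
  ∑ v ∈ G, if Ala x v then ww v • τ v.sum (h (nd x v)) else 0

/-- The masses of the words of length `n` with start vector `e`. -/
noncomputable def ZE (τ : ℕ → E →ₗ[ℝ] E) (K n : ℕ) (e : E) : ℤ → E := LG τ (lw K n) (fun _ => e)

/-- The mean of `ZE`: `∑ 2 ^ (- sum) τ_sum e`. -/
noncomputable def PE (τ : ℕ → E →ₗ[ℝ] E) (K n : ℕ) (e : E) : E :=
  ∑ v ∈ lw K n, (1 / 2 : ℝ) ^ v.sum • τ v.sum e

/-- The part of the masses of the words of length `n + 1` which belongs to the digit `n`. -/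
noncomputable def DE (τ : ℕ → E →ₗ[ℝ] E) (K n : ℕ) (e : E) : ℤ → E :=
  LG τ (lw K n) (fun x => ZE τ K 1 e x - PE τ K 1 e)

/-- Probability of a set of words. -/
noncomputable def pr (G : Finset (List ℕ)) : ℝ := ∑ v ∈ G, (1 / 2 : ℝ) ^ v.sum

/-- The average over the digits `q, …, m - 1`. -/
noncomputable def cE (q m : ℕ) (f : ℤ → ℝ) (x : ℤ) : ℝ :=
  (∑ W ∈ range (3 ^ (m - q)), f (x + 3 ^ q * (W : ℤ))) / 3 ^ (m - q)

/-- The part of `f` which belongs to the digit `j`. -/
noncomputable def dE (m : ℕ) (f : ℤ → ℝ) (j : ℕ) (x : ℤ) : ℝ := cE (j + 1) m f x - cE j m f x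

/-- The average of `h (z + e)` over the density `f` of `e`. -/
noncomputable def cvE (m : ℕ) (f : ℤ → ℝ) (h : ℤ → E) (z : ℤ) : E :=
  (1 / 3 ^ m : ℝ) • ∑ e ∈ range (3 ^ m), f (e : ℤ) • h (z + e)

open Classical in
/-- Good words of length `k`. -/
noncomputable def Gd (K k : ℕ) (S ε : ℝ) : Finset (List ℕ) :=
  (lw K k).filter (fun v => |(Gw v : ℝ)| ≤ S * 2 ^ v.sum ∧ |(v.sum : ℝ) - 2 * k| ≤ ε * k)

open Classical in
/-- The words of `G` with sum `A` which are allowed at `r`, and with the end in the class of `e` mod `3 ^ m`. -/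
noncomputable def Cls (G : Finset (List ℕ)) (r : ℤ) (A m : ℕ) (e : ℤ) : Finset (List ℕ) :=
  G.filter (fun v => Ala r v ∧ v.sum = A ∧ (3 : ℤ) ^ m ∣ nd r v - e)

end Pool.Agent.helper4.PDM
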