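import Pool.Agent.helper4.PDM.Op

/-!
# PDM-Dif: the functions `LG τ (lw K n) h` for `h` with the digit `0` only and mean zero; the partition functions

`T_mean`: for a word `v` of length `n`: `nd (x + 3 ^ n d) v = nd x v + 2 ^ sum d` (`nd_shift`, `q = 0`), `ala_shift`, and
`∑_{d<3} h (y + 2 ^ A d) = ∑_{d<3} h (y + d) = 0` (`h` has period `3` and `d ↦ 2 ^ A d` permutes the residues mod `3`).
`T_anti`: `LG_add` (`n' = (n' - n) + n`), `LG_l1`, `pr_lw_le`.  `base_mean`: each letter is allowed for exactly one residue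
modulo `3` (`al_sum`, `al_congr`).  `ZE_succ`: `ZE (n+1) = LG (lw K n) (ZE 1)` (`LG_add`), `LG_sub`.
-/

namespace Pool.Agent.helper4.PDM

open Finset Pool.Agent.helper14.EX1

variable {E : Type} [NormedAddCommGroup E] [NormedSpace ℝ E] {τ : ℕ → E →ₗ[ℝ] E}

omit [NormedAddCommGroup E] [NormedSpace ℝ E] in
theorem Dif_per_const (e : E) : PerV 0 (fun _ : ℤ => e) := fun _ => rfl

theorem Dif_len (K n : ℕ) : ∀ v ∈ lw K n, v.length = n := fun _ hv => (mem_lw.1 hv).1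

theorem Dif_len1 (K n : ℕ) : ∀ v ∈ lw K n, v.length = n ∧ ∀ b ∈ v, 1 ≤ b :=
  fun _ hv => ⟨(mem_lw.1 hv).1, fun b hb => ((mem_lw.1 hv).2 b hb).1⟩

theorem Dif_two (A : ℕ) : (3 : ℤ) ∣ 2 ^ A - 1 ∨ (3 : ℤ) ∣ 2 ^ A - 2 := by
  rcases Lett_two A with h | h
  · left
    omega
  · right
    omega

/-- Multiplication by a power of `2` permutes the residues modulo `3`. -/
theorem Dif_perm {h : ℤ → E} (hh : PerV 1 h) (hm : MeanZ 0 h) (A : ℕ) (y : ℤ) :
    ∑ d ∈ range 3, h (y + 2 ^ A * (d : ℤ)) = 0 := by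
  have h0 := hm y
  rw [pow_zero] at h0
  simp only [one_mul] at h0
  rw [sum_range_succ, sum_range_succ, sum_range_one] at h0 ⊢
  push_cast at h0 ⊢
  rcases Dif_two A with h1 | h1
  · have e1 : h (y + 2 ^ A * 1) = h (y + 1) := by
      apply perV_dvd hh
      rw [pow_one]
      have : y + 2 ^ A * 1 - (y + 1) = 2 ^ A - 1 := by ring
      rw [this]
      exact h1
    have e2 : h (y + 2 ^ A * 2) = h (y + 2) := by
      apply perV_dvd hh
      rw [pow_one]
      have : y + 2 ^ A * 2 - (y + 2) = (2 ^ A - 1) * 2 := by ring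
      rw [this]
      exact h1.mul_right 2
    rw [e1, e2, mul_zero]
    exact h0
  · have e1 : h (y + 2 ^ A * 1) = h (y + 2) := by
      apply perV_dvd hh
      rw [pow_one]
      have : y + 2 ^ A * 1 - (y + 2) = 2 ^ A - 2 := by ring
      rw [this]
      exact h1
    have e2 : h (y + 2 ^ A * 2) = h (y + 1) := by
      apply perV_dvd hh
      rw [pow_one]
      have : y + 2 ^ A * 2 - (y + 1) = (2 ^ A - 2) * 2 + 3 := by ring
      rw [this]
      exact dvd_add (h1.mul_right 2) (dvd_refl 3)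
    rw [e1, e2, mul_zero, add_assoc, add_comm (h (y + 2)), ← add_assoc]
    exact h0

theorem Dif_T_per {K n m : ℕ} {h : ℤ → E} (hh : PerV m h) : PerV (n + m) (LG τ (lw K n) h) := by
  rw [Nat.add_comm]
  exact LG_per (Dif_len K n) hh

theorem T_per (K n : ℕ) {h : ℤ → E} (hh : PerV 1 h) : PerV (n + 1) (LG τ (lw K n) h) :=
  Dif_T_per hh

theorem T_mean (K n : ℕ) {h : ℤ → E} (hh : PerV 1 h) (hm : MeanZ 0 h) :
    MeanZ n (LG τ (lw K n) h) := by
  intro x
  unfold LG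
  rw [sum_comm]
  refine sum_eq_zero fun v hv => ?_
  have hl := Dif_len K n v hv
  have h1 : ∀ d ∈ range 3, (if Ala (x + 3 ^ n * (d : ℤ)) v then
      ww v • τ v.sum (h (nd (x + 3 ^ n * (d : ℤ)) v)) else 0) =
      if Ala x v then ww v • τ v.sum (h (nd x v + 2 ^ v.sum * (d : ℤ))) else 0 := by
    intro d _
    have e1 : Ala (x + 3 ^ n * (d : ℤ)) v ↔ Ala x v := by
      have := ala_shift v x (d : ℤ)
      rw [hl] at this
      exact this
    have e2 : nd (x + 3 ^ n * (d : ℤ)) v = nd x v + 2 ^ v.sum * (d : ℤ) := by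
      have := nd_shift v 0 x (d : ℤ)
      rw [hl, Nat.zero_add, pow_zero, one_mul] at this
      exact this
    rw [e2]
    exact if_congr e1 rfl rfl
  rw [sum_congr rfl h1]
  by_cases ha : Ala x v
  · simp only [ha, if_true]
    rw [← smul_sum, ← map_sum, Dif_perm hh hm, map_zero, smul_zero]
  · simp only [ha, if_false]
    exact sum_const_zero

theorem T_anti (hτ : Con τ) (K : ℕ) {n n' : ℕ} (hn : n ≤ n') {h : ℤ → E} (hh : PerV 1 h) :
    l1 (n' + 1) (LG τ (lw K n') h) ≤ l1 (n + 1) (LG τ (lw K n) h) := by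
  obtain ⟨k, rfl⟩ := Nat.exists_eq_add_of_le hn
  have e1 : LG τ (lw K (n + k)) h = LG τ (lw K k) (LG τ (lw K n) h) := by
    rw [Nat.add_comm n k]
    exact LG_add hτ K k n h
  rw [e1]
  have h2 := LG_l1 hτ (Dif_len1 K k) (T_per (τ := τ) K n hh)
  have h3 : n + k + 1 = n + 1 + k := by omega
  rw [h3]
  refine h2.trans ?_
  have h4 := pr_lw_le K k
  have h5 := l1_nn (n + 1) (LG τ (lw K n) h)
  nlinarith

theorem Dif_LG_zero (hτ : Con τ) (K : ℕ) (h : ℤ → E) : LG τ (lw K 0) h = h := by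
  funext x
  have e1 : lw K 0 = {[]} := rfl
  unfold LG
  rw [e1, sum_singleton]
  have e2 : Ala x [] := trivial
  rw [if_pos e2, ww_nil, one_smul]
  exact hτ.zero _

theorem T_le (hτ : Con τ) (K n : ℕ) {h : ℤ → E} (hh : PerV 1 h) :
    l1 (n + 1) (LG τ (lw K n) h) ≤ l1 1 h := by
  have h1 := T_anti hτ K (Nat.zero_le n) hh
  rw [Dif_LG_zero hτ K h, Nat.zero_add] at h1
  exact h1

theorem Dif_ZE_per (K n : ℕ) (e : E) : PerV n (ZE τ K n e) := by
  have h := Dif_T_per (τ := τ) (K := K) (n := n) (Dif_per_const e)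
  rw [Nat.add_zero] at h
  exact h

theorem Dif_ZE_l1 (hτ : Con τ) (K n : ℕ) (e : E) : l1 n (ZE τ K n e) ≤ ‖e‖ := by
  have h := LG_l1 hτ (Dif_len1 K n) (Dif_per_const e)
  rw [Nat.zero_add, l1_const] at h
  refine h.trans ?_
  have h4 := pr_lw_le K n
  have h5 := norm_nonneg e
  nlinarith

theorem Dif_PE_norm (hτ : Con τ) (K n : ℕ) (e : E) : ‖PE τ K n e‖ ≤ ‖e‖ := by
  have h1 : ‖PE τ K n e‖ ≤ pr (lw K n) * ‖e‖ := by
    unfold PE pr
    rw [sum_mul]
    refine norm_sum_le_of_le _ fun v _ => ?_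
    rw [norm_smul, Real.norm_of_nonneg (by positivity)]
    exact mul_le_mul_of_nonneg_left (hτ.norm _ _) (by positivity)
  refine h1.trans ?_
  have h4 := pr_lw_le K n
  have h5 := norm_nonneg e
  nlinarith

theorem base_per (K : ℕ) (e : E) : PerV 1 (fun x => ZE τ K 1 e x - PE τ K 1 e) := by
  intro x
  show ZE τ K 1 e (x + 3 ^ 1) - PE τ K 1 e = ZE τ K 1 e x - PE τ K 1 e
  rw [Dif_ZE_per K 1 e x]

theorem Dif_count {v : List ℕ} (hl : v.length = 1) (hb : ∀ b ∈ v, 1 ≤ b) (x : ℤ) :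
    ∑ d ∈ range 3, (if Ala (x + (d : ℤ)) v then (1 : ℝ) else 0) = 1 := by
  have hp : Per 1 (fun y : ℤ => if Ala y v then (1 : ℝ) else 0) := by
    intro y
    have h1 := ala_shift v y 1
    rw [hl, mul_one] at h1
    exact if_congr h1 rfl rfl
  have h2 := sum_shift hp x
  have h3 := ala_count v hb
  rw [hl] at h3
  rw [h3, pow_one] at h2
  refine Eq.trans (sum_congr rfl fun d _ => ?_) h2
  rw [add_comm]

theorem base_mean (K : ℕ) (e : E) : MeanZ 0 (fun x => ZE τ K 1 e x - PE τ K 1 e) := by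
  intro x
  simp only [pow_zero, one_mul]
  rw [sum_sub_distrib, sum_const, card_range, sub_eq_zero]
  unfold ZE LG PE
  rw [sum_comm, smul_sum]
  refine sum_congr rfl fun v hv => ?_
  obtain ⟨hl, hb⟩ := Dif_len1 K 1 v hv
  have h1 : ∀ d ∈ range 3, (if Ala (x + (d : ℤ)) v then ww v • τ v.sum e else 0) =
      (if Ala (x + (d : ℤ)) v then (1 : ℝ) else 0) • (ww v • τ v.sum e) := by
    intro d _
    split_ifs
    · rw [one_smul]
    · rw [zero_smul]
  rw [sum_congr rfl h1, ← sum_smul, Dif_count hl hb x, one_smul]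
  have h2 : ww v = 3 * (1 / 2 : ℝ) ^ v.sum := by
    unfold ww
    rw [hl, pow_one, div_pow, one_pow]
    ring
  rw [h2, mul_smul]
  exact ofNat_smul_eq_nsmul ℝ 3 _

theorem base_l1 (hτ : Con τ) (K : ℕ) (e : E) :
    l1 1 (fun x => ZE τ K 1 e x - PE τ K 1 e) ≤ 2 * ‖e‖ := by
  have h1 := l1_sub_le 1 (ZE τ K 1 e) (fun _ => PE τ K 1 e)
  rw [l1_const] at h1
  have h2 := Dif_ZE_l1 hτ K 1 e
  have h3 := Dif_PE_norm hτ K 1 e
  linarith

theorem ZE_per (K n : ℕ) (e : E) : PerV n (ZE τ K n e) := Dif_ZE_per K n e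

theorem ZE_add (hτ : Con τ) (K k n : ℕ) (e : E) : ZE τ K (k + n) e = LG τ (lw K k) (ZE τ K n e) :=
  LG_add hτ K k n _

theorem ZE_l1 (hτ : Con τ) (K n : ℕ) (e : E) : l1 n (ZE τ K n e) ≤ ‖e‖ := Dif_ZE_l1 hτ K n e

theorem DE_per (K n : ℕ) (e : E) : PerV (n + 1) (DE τ K n e) := T_per K n (base_per K e)

theorem PE_norm (hτ : Con τ) (K n : ℕ) (e : E) : ‖PE τ K n e‖ ≤ ‖e‖ := Dif_PE_norm hτ K n e

theorem PE_zero (hτ : Con τ) (K : ℕ) (e : E) : PE τ K 0 e = e := by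
  have e1 : lw K 0 = {[]} := rfl
  unfold PE
  rw [e1, sum_singleton, List.sum_nil, pow_zero, one_smul]
  exact hτ.zero _

theorem PE_add (hτ : Con τ) (K a b : ℕ) (e : E) : PE τ K (a + b) e = PE τ K a (PE τ K b e) := by
  unfold PE
  rw [sum_lw_add]
  refine sum_congr rfl fun u _ => ?_
  rw [map_sum, smul_sum]
  refine sum_congr rfl fun v _ => ?_
  rw [List.sum_append, pow_add, hτ.add, map_smul, mul_smul]

theorem ZE_succ (hτ : Con τ) (K n : ℕ) (e : E) (x : ℤ) :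
    ZE τ K (n + 1) e x = DE τ K n e x + ZE τ K n (PE τ K 1 e) x := by
  have h1 : DE τ K n e x = LG τ (lw K n) (ZE τ K 1 e) x - LG τ (lw K n) (fun _ => PE τ K 1 e) x :=
    LG_sub (ZE τ K 1 e) (fun _ => PE τ K 1 e) x
  rw [h1, ZE_add hτ K n 1 e]
  show _ = _ - _ + LG τ (lw K n) (fun _ => PE τ K 1 e) x
  rw [sub_add_cancel]

theorem ZE_tel (hτ : Con τ) (K : ℕ) {m l : ℕ} (h : m ≤ l) (e : E) (x : ℤ) :
    ZE τ K l e x - ZE τ K m (PE τ K (l - m) e) x =
      ∑ j ∈ Ico m l, DE τ K j (PE τ K (l - 1 - j) e) x := by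
  induction l, h using Nat.le_induction generalizing e with
  | base =>
    rw [Nat.sub_self, PE_zero hτ, sub_self, Ico_self, sum_empty]
  | succ l hl ih =>
    have h1 := ih (PE τ K 1 e)
    rw [← PE_add hτ] at h1
    have h2 : l - m + 1 = l + 1 - m := by omega
    rw [h2] at h1
    rw [sum_Ico_succ_top hl, ZE_succ hτ]
    have h3 : ∑ j ∈ Ico m l, DE τ K j (PE τ K (l + 1 - 1 - j) e) x =
        ∑ j ∈ Ico m l, DE τ K j (PE τ K (l - 1 - j) (PE τ K 1 e)) x := by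
      refine sum_congr rfl fun j hj => ?_
      rw [mem_Ico] at hj
      rw [← PE_add hτ]
      have h4 : l - 1 - j + 1 = l + 1 - 1 - j := by omega
      rw [h4]
    have h5 : PE τ K (l + 1 - 1 - l) e = e := by
      have : l + 1 - 1 - l = 0 := by omega
      rw [this, PE_zero hτ]
    rw [h3, h5, ← h1]
    abel

end Pool.Agent.helper4.PDM
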