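import Pool.Agent.helper4.PDM.Iter

/-!
# PDM-Fam: the scalar form (families indexed by the sum of the exponents)

`E = Fin N → ℝ` (sup norm), `(τ B f) i = f (i + B)` if `i + B < N`, else `0`: `Con τ`.  `h y i = Δ i y`, `mixT`:
`‖h y‖ ≤ 1`, `(LG τ (lw K n) h x) i = ∑ ww v * Δ (i + v.sum) (nd x v)` because `Δ A = 0` for `A ≥ N`; `|coordinate| ≤ ‖ ‖`.
`famZ`: the same with `mixZ` and the start vector `e i = g i`.
-/

namespace Pool.Agent.helper4.PDM

open Finset Pool.Agent.helper14.EX1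

/-- The shift by `B` on the families of length `N`. -/
noncomputable def Fam_sh (N B : ℕ) : (Fin N → ℝ) →ₗ[ℝ] (Fin N → ℝ) where
  toFun f := fun i => if h : i.1 + B < N then f ⟨i.1 + B, h⟩ else 0
  map_add' f g := by
    funext i
    by_cases h : i.1 + B < N
    · simp only [dif_pos h, Pi.add_apply]
    · simp only [dif_neg h, Pi.add_apply, add_zero]
  map_smul' c f := by
    funext i
    by_cases h : i.1 + B < N
    · simp only [dif_pos h, Pi.smul_apply, RingHom.id_apply]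
    · simp only [dif_neg h, Pi.smul_apply, RingHom.id_apply, smul_zero]

theorem Fam_sh_apply (N B : ℕ) (f : Fin N → ℝ) (i : Fin N) :
    Fam_sh N B f i = if h : i.1 + B < N then f ⟨i.1 + B, h⟩ else 0 := rfl

/-- The shift of a family which vanishes from `N` on. -/
theorem Fam_sh_fam {N : ℕ} {g : ℕ → ℝ} (hg : ∀ A, N ≤ A → g A = 0) (B : ℕ) (i : Fin N) :
    Fam_sh N B (fun j => g j.1) i = g (i.1 + B) := by
  rw [Fam_sh_apply]
  by_cases h : i.1 + B < N
  · rw [dif_pos h]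
  · rw [dif_neg h, hg _ (not_lt.1 h)]

theorem Fam_con (N : ℕ) : Con (Fam_sh N) where
  norm A v := by
    refine (pi_norm_le_iff_of_nonneg (norm_nonneg v)).2 (fun i => ?_)
    rw [Fam_sh_apply]
    by_cases h : i.1 + A < N
    · rw [dif_pos h]
      exact norm_le_pi_norm v _
    · rw [dif_neg h, norm_zero]
      exact norm_nonneg v
  zero v := by
    funext i
    have h : i.1 + 0 < N := i.2
    rw [Fam_sh_apply, dif_pos h]
    rfl
  add A B v := by
    funext i
    rw [Fam_sh_apply, Fam_sh_apply]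
    by_cases h : i.1 + (A + B) < N
    · have h1 : i.1 + A < N := by omega
      have h2 : i.1 + A + B < N := by omega
      rw [dif_pos h, dif_pos h1, Fam_sh_apply, dif_pos h2]
      exact congrArg v (Fin.ext (by simp only [add_assoc]))
    · rw [dif_neg h]
      by_cases h1 : i.1 + A < N
      · have h2 : ¬ i.1 + A + B < N := by omega
        rw [dif_pos h1, Fam_sh_apply, dif_neg h2]
      · rw [dif_neg h1]

/-- The coordinates of the transfer operator. -/
theorem Fam_LG {N : ℕ} {g : ℕ → ℤ → ℝ} (hg : ∀ A x, N ≤ A → g A x = 0) (G : Finset (List ℕ))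
    (x : ℤ) (i : Fin N) :
    LG (Fam_sh N) G (fun y j => g j.1 y) x i =
      ∑ v ∈ G, if Ala x v then ww v * g (i.1 + v.sum) (nd x v) else 0 := by
  unfold LG
  rw [Finset.sum_apply]
  refine sum_congr rfl fun v _ => ?_
  by_cases h : Ala x v
  · rw [if_pos h, if_pos h, Pi.smul_apply, smul_eq_mul,
      Fam_sh_fam (g := fun A => g A (nd x v)) (fun A hA => hg A _ hA)]
  · rw [if_neg h, if_neg h, Pi.zero_apply]

/-- The coordinates of the mean. -/
theorem Fam_PE {N : ℕ} {g : ℕ → ℝ} (hg : ∀ A, N ≤ A → g A = 0) (K n : ℕ) :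
    PE (Fam_sh N) K n (fun j : Fin N => g j.1) =
      fun j : Fin N => ∑ v ∈ lw K n, (1 / 2 : ℝ) ^ v.sum * g (j.1 + v.sum) := by
  funext i
  unfold PE
  rw [Finset.sum_apply]
  refine sum_congr rfl fun v _ => ?_
  rw [Pi.smul_apply, smul_eq_mul, Fam_sh_fam hg]

theorem Fam_norm_le {N : ℕ} {f : Fin N → ℝ} (h : ∀ i, |f i| ≤ 1) : ‖f‖ ≤ 1 :=
  (pi_norm_le_iff_of_nonneg zero_le_one).2 (fun i => by rw [Real.norm_eq_abs]; exact h i)

theorem Fam_l1_le {N : ℕ} {q : ℕ} {h : ℤ → Fin N → ℝ} (hh : ∀ x i, |h x i| ≤ 1) : l1 q h ≤ 1 := by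
  have h1 : l1 q h ≤ avg q (fun _ => (1 : ℝ)) := avg_mono (fun x => Fam_norm_le (hh x))
  rwa [avg_const] at h1

theorem Fam_bound {C a : ℝ} (hC : 0 ≤ C) (ha : a ≤ 1) (n p : ℕ) :
    C * a / (n + 1 : ℝ) ^ p ≤ C / (n + 1 : ℝ) ^ p := by
  refine div_le_div_of_nonneg_right ?_ (by positivity)
  calc C * a ≤ C * 1 := mul_le_mul_of_nonneg_left ha hC
    _ = C := mul_one C

/-- **Mixing for terminal families**: `Δ A` has period `3` and mean zero, `|Δ A| ≤ 1`, `Δ A = 0` for `A ≥ N`; `C` does not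
depend on `N`, `K`, `Δ`. -/
theorem famT (p : ℕ) : ∃ C : ℝ, 0 ≤ C ∧ ∀ (K n N : ℕ) (Δ : ℕ → ℤ → ℝ),
    (∀ A x, |Δ A x| ≤ 1) → (∀ A x, Δ A (x + 3) = Δ A x) → (∀ A x, Δ A x + Δ A (x + 1) + Δ A (x + 2) = 0) →
    (∀ A x, N ≤ A → Δ A x = 0) → ∀ A : ℕ,
      avg (n + 1) (fun x => |∑ v ∈ lw K n, if Ala x v then ww v * Δ (A + v.sum) (nd x v) else 0|) ≤
        C / (n + 1 : ℝ) ^ p := by
  obtain ⟨C, hC, H⟩ := mixT p
  refine ⟨C, hC, fun K n N Δ h1 h2 h3 h4 A => ?_⟩
  by_cases hA : A < N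
  · have hper : PerV 1 (fun (y : ℤ) (j : Fin N) => Δ j.1 y) := by
      intro x
      funext j
      show Δ j.1 (x + 3 ^ 1) = Δ j.1 x
      rw [pow_one]
      exact h2 _ _
    have hmean : MeanZ 0 (fun (y : ℤ) (j : Fin N) => Δ j.1 y) := by
      intro x
      funext j
      rw [Finset.sum_apply]
      have h5 := h3 j.1 x
      simp only [Finset.sum_range_succ, Finset.sum_range_zero, pow_zero, one_mul, Nat.cast_zero,
        Nat.cast_one, Nat.cast_ofNat, add_zero, zero_add, Pi.zero_apply]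
      exact h5
    have h6 := H (Fin N → ℝ) (Fam_sh N) (Fam_con N) K n _ hper hmean
    have h7 : avg (n + 1) (fun x => |∑ v ∈ lw K n, if Ala x v then ww v * Δ (A + v.sum) (nd x v) else 0|) ≤
        l1 (n + 1) (LG (Fam_sh N) (lw K n) (fun (y : ℤ) (j : Fin N) => Δ j.1 y)) := by
      refine avg_mono (fun x => ?_)
      rw [← Fam_LG h4 (lw K n) x ⟨A, hA⟩, ← Real.norm_eq_abs]
      exact norm_le_pi_norm _ _
    exact h7.trans (h6.trans (Fam_bound hC (Fam_l1_le (fun x i => h1 _ _)) n p))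
  · have h8 : (fun x : ℤ => |∑ v ∈ lw K n, if Ala x v then ww v * Δ (A + v.sum) (nd x v) else 0|) =
        fun _ => (0 : ℝ) := by
      funext x
      rw [sum_eq_zero, abs_zero]
      intro v _
      rw [h4 (A + v.sum) (nd x v) (by omega), mul_zero]
      exact ite_self 0
    rw [h8, avg_const]
    positivity

/-- The mass of the words of length `l` with the terminal function `g` of the sum, against its version with `m` digits. -/
theorem famZ (p : ℕ) : ∃ C : ℝ, 0 ≤ C ∧ ∀ (K m l N : ℕ) (g : ℕ → ℝ), m ≤ l → (∀ A, |g A| ≤ 1) →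
    (∀ A, N ≤ A → g A = 0) → ∀ A : ℕ,
      avg l (fun x => |(∑ v ∈ lw K l, if Ala x v then ww v * g (A + v.sum) else 0) -
        ∑ u ∈ lw K m, if Ala x u then ww u * ∑ v ∈ lw K (l - m), (1 / 2 : ℝ) ^ v.sum *
          g (A + u.sum + v.sum) else 0|) ≤ C / (m + 1 : ℝ) ^ p := by
  obtain ⟨C, hC, H⟩ := mixZ p
  refine ⟨C, hC, fun K m l N g hml h1 h2 A => ?_⟩
  have hG : ∀ B, N ≤ B → ∑ v ∈ lw K (l - m), (1 / 2 : ℝ) ^ v.sum * g (B + v.sum) = 0 := by
    intro B hB
    refine sum_eq_zero fun v _ => ?_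
    rw [h2 _ (by omega), mul_zero]
  by_cases hA : A < N
  · have h6 := H (Fin N → ℝ) (Fam_sh N) (Fam_con N) K m l (fun j : Fin N => g j.1) hml
    have h7 : avg l (fun x => |(∑ v ∈ lw K l, if Ala x v then ww v * g (A + v.sum) else 0) -
        ∑ u ∈ lw K m, if Ala x u then ww u * ∑ v ∈ lw K (l - m), (1 / 2 : ℝ) ^ v.sum *
          g (A + u.sum + v.sum) else 0|) ≤
        l1 l (fun x => ZE (Fam_sh N) K l (fun j : Fin N => g j.1) x -
          ZE (Fam_sh N) K m (PE (Fam_sh N) K (l - m) (fun j : Fin N => g j.1)) x) := by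
      refine avg_mono (fun x => ?_)
      have h8 : ZE (Fam_sh N) K l (fun j : Fin N => g j.1) x ⟨A, hA⟩ =
          ∑ v ∈ lw K l, if Ala x v then ww v * g (A + v.sum) else 0 :=
        Fam_LG (g := fun B _ => g B) (fun B _ hB => h2 B hB) (lw K l) x ⟨A, hA⟩
      have h9 : ZE (Fam_sh N) K m (PE (Fam_sh N) K (l - m) (fun j : Fin N => g j.1)) x ⟨A, hA⟩ =
          ∑ u ∈ lw K m, if Ala x u then ww u * ∑ v ∈ lw K (l - m), (1 / 2 : ℝ) ^ v.sum *
            g (A + u.sum + v.sum) else 0 := by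
        rw [Fam_PE h2]
        exact Fam_LG (g := fun B _ => ∑ v ∈ lw K (l - m), (1 / 2 : ℝ) ^ v.sum * g (B + v.sum))
          (fun B _ hB => hG B hB) (lw K m) x ⟨A, hA⟩
      rw [← h8, ← h9, ← Pi.sub_apply, ← Real.norm_eq_abs]
      exact norm_le_pi_norm _ _
    exact h7.trans (h6.trans (Fam_bound hC (Fam_norm_le (fun i => h1 _)) m p))
  · have h8 : (fun x : ℤ => |(∑ v ∈ lw K l, if Ala x v then ww v * g (A + v.sum) else 0) -
        ∑ u ∈ lw K m, if Ala x u then ww u * ∑ v ∈ lw K (l - m), (1 / 2 : ℝ) ^ v.sum *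
          g (A + u.sum + v.sum) else 0|) = fun _ => (0 : ℝ) := by
      funext x
      rw [sum_eq_zero, sum_eq_zero, sub_zero, abs_zero]
      · intro u _
        rw [hG _ (by omega), mul_zero]
        exact ite_self 0
      · intro v _
        rw [h2 (A + v.sum) (by omega), mul_zero]
        exact ite_self 0
    rw [h8, avg_const]
    positivity

theorem Fam_sum_le {K n : ℕ} {v : List ℕ} (hv : v ∈ lw K n) : v.sum ≤ K * n := by
  obtain ⟨h1, h2⟩ := mem_lw.1 hv
  have h3 := List.sum_le_card_nsmul v K (fun k hk => (h2 k hk).2)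
  rw [h1, smul_eq_mul] at h3
  linarith [mul_comm n K]

/-- The form without cut-off in the sum (`n` and `K` are fixed, so the sums are at most `K * n`: truncate `Δ`). -/
theorem mixP (p : ℕ) : ∃ C : ℝ, 0 ≤ C ∧ ∀ (K n : ℕ) (Δ : ℕ → ℤ → ℝ),
    (∀ A, Per 1 (Δ A)) → (∀ A x, ∑ d ∈ range 3, Δ A (x + (d : ℤ)) = 0) → (∀ A x, |Δ A x| ≤ 1) →
      avg (n + 1) (fun x => |∑ v ∈ lw K n, if Ala x v then ww v * Δ v.sum (nd x v) else 0|) ≤
        C / (n + 1 : ℝ) ^ p := by
  obtain ⟨C, hC, H⟩ := famT p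
  refine ⟨C, hC, fun K n Δ h1 h2 h3 => ?_⟩
  have h4 := H K n (K * n + 1) (fun A x => if A ≤ K * n then Δ A x else 0) ?_ ?_ ?_ ?_ 0
  · refine le_of_eq_of_le ?_ h4
    refine congrArg (avg (n + 1)) ?_
    funext x
    refine congrArg abs ?_
    refine sum_congr rfl fun v hv => ?_
    rw [zero_add, if_pos (Fam_sum_le hv)]
  · intro A x
    by_cases h : A ≤ K * n
    · simp only [if_pos h]
      exact h3 A x
    · simp only [if_neg h, abs_zero]
      exact zero_le_one
  · intro A x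
    have h5 := h1 A x
    rw [pow_one] at h5
    simp only [h5]
  · intro A x
    have h5 := h2 A x
    simp only [Finset.sum_range_succ, Finset.sum_range_zero, Nat.cast_zero, Nat.cast_one,
      Nat.cast_ofNat, add_zero, zero_add] at h5
    by_cases h : A ≤ K * n
    · simp only [if_pos h]
      exact h5
    · simp only [if_neg h, add_zero]
  · intro A x hA
    exact if_neg (by omega)

end Pool.Agent.helper4.PDM
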