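import Pool.Agent.helper4.PDM.Vec
import Pool.Agent.helper14.EX1.InjZ

/-!
# PDM-Grp: the words of a group have distinct ends in an interval

`3 ^ k * nd r v = 2 ^ A * r + Gw v` (`nd_eq`), `|Gw v| ≤ S 2 ^ A`, the ends are distinct (`nd_inj`), congruent to `e` modulo
`3 ^ m`: the map `v ↦ (nd r v - e) / 3 ^ m` is injective into an interval of length `2 S 2 ^ A / 3 ^ (k + m)`, which contains at most
`2 S 2 ^ A / 3 ^ (k + m) + 1` integers, and `1 ≤ 2 ^ A / 3 ^ (k + m)`.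
-/

namespace Pool.Agent.helper4.PDM

open Finset Pool.Agent.helper14.EX1

/-- At most `y - x + 1` integers in the real interval `[x, y]`. -/
theorem card_int_le {s : Finset ℤ} {x y : ℝ} (hxy : x ≤ y) (h : ∀ a ∈ s, x ≤ a ∧ (a : ℝ) ≤ y) :
    (s.card : ℝ) ≤ y - x + 1 := by
  have hsub : s ⊆ Icc ⌈x⌉ ⌊y⌋ := by
    intro a ha
    rw [mem_Icc]
    exact ⟨Int.ceil_le.2 (h a ha).1, Int.le_floor.2 (h a ha).2⟩
  have h1 : s.card ≤ (Icc ⌈x⌉ ⌊y⌋).card := card_le_card hsub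
  rw [Int.card_Icc] at h1
  have h2 : (s.card : ℝ) ≤ (((⌊y⌋ + 1 - ⌈x⌉).toNat : ℕ) : ℝ) := by exact_mod_cast h1
  refine h2.trans ?_
  have h3 : (((⌊y⌋ + 1 - ⌈x⌉).toNat : ℕ) : ℝ) = ((max (⌊y⌋ + 1 - ⌈x⌉) 0 : ℤ) : ℝ) := by
    rw [← Int.toNat_eq_max, Int.cast_natCast]
  rw [h3, Int.cast_max]
  refine max_le ?_ (by push_cast; linarith)
  push_cast
  have h4 := Int.floor_le y
  have h5 := Int.le_ceil x
  linarith

theorem cls_le {G : Finset (List ℕ)} {k : ℕ} (hG : ∀ v ∈ G, v.length = k ∧ ∀ b ∈ v, 1 ≤ b) {S : ℝ}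
    (hS : 0 ≤ S) (hs : ∀ v ∈ G, |(Gw v : ℝ)| ≤ S * 2 ^ v.sum) (r : ℤ) {A m : ℕ}
    (hA : (3 : ℝ) ^ (k + m) ≤ 2 ^ A) (e : ℤ) :
    ((Cls G r A m e).card : ℝ) ≤ (2 * S + 1) * (2 ^ A / 3 ^ (k + m)) := by
  classical
  have hmem : ∀ v ∈ Cls G r A m e, v ∈ G ∧ Ala r v ∧ v.sum = A ∧ (3 : ℤ) ^ m ∣ nd r v - e := by
    intro v hv
    rw [Cls, mem_filter] at hv
    exact ⟨hv.1, hv.2.1, hv.2.2.1, hv.2.2.2⟩
  have hdiv : ∀ v ∈ Cls G r A m e, nd r v = e + 3 ^ m * ((nd r v - e) / 3 ^ m) := by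
    intro v hv
    have h1 := Int.mul_ediv_cancel' (hmem v hv).2.2.2
    rw [h1]
    ring
  -- the map is injective
  have hinj : Set.InjOn (fun v : List ℕ => (nd r v - e) / 3 ^ m) (Cls G r A m e : Set (List ℕ)) := by
    intro v hv w hw hvw
    have hv' := mem_coe.1 hv
    have hw' := mem_coe.1 hw
    have h1 : nd r v = nd r w := by
      rw [hdiv v hv', hdiv w hw']
      simp only at hvw
      rw [hvw]
    obtain ⟨gv, av, -, -⟩ := hmem v hv'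
    obtain ⟨gw, aw, -, -⟩ := hmem w hw'
    exact nd_inj ((hG v gv).1.trans (hG w gw).1.symm) (hG v gv).2 (hG w gw).2 av aw h1
  rw [← card_image_of_injOn hinj]
  have hp : (0 : ℝ) < 3 ^ (k + m) := by positivity
  have hpm : (0 : ℝ) < 3 ^ m := by positivity
  have hpk : (0 : ℝ) < 3 ^ k := by positivity
  set c : ℝ := ((2 : ℝ) ^ A * r - 3 ^ k * e) / 3 ^ (k + m) with hc
  set d : ℝ := S * (2 ^ A / 3 ^ (k + m)) with hd
  have hd0 : 0 ≤ d := by positivity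
  have h2 : ∀ a ∈ (Cls G r A m e).image (fun v : List ℕ => (nd r v - e) / 3 ^ m),
      c - d ≤ (a : ℝ) ∧ (a : ℝ) ≤ c + d := by
    intro a ha
    rw [mem_image] at ha
    obtain ⟨v, hv, rfl⟩ := ha
    obtain ⟨gv, av, sv, -⟩ := hmem v hv
    set b : ℤ := (nd r v - e) / 3 ^ m with hb
    have h3 := nd_eq av
    rw [(hG v gv).1, sv, hdiv v hv, ← hb] at h3
    have h4 : (3 : ℝ) ^ k * (e + 3 ^ m * b) = 2 ^ A * r + (Gw v : ℝ) := by exact_mod_cast h3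
    have h5 := hs v gv
    rw [sv, abs_le] at h5
    have h6 : (b : ℝ) = c + (Gw v : ℝ) / 3 ^ (k + m) := by
      rw [hc, ← add_div, eq_div_iff hp.ne', pow_add]
      linear_combination h4
    have h7 : d = S * 2 ^ A / 3 ^ (k + m) := by rw [hd]; ring
    rw [h6, h7]
    constructor
    · have h8 : -(S * 2 ^ A) / 3 ^ (k + m) ≤ (Gw v : ℝ) / 3 ^ (k + m) :=
        div_le_div_of_nonneg_right h5.1 hp.le
      rw [neg_div] at h8
      linarith
    · have h8 : (Gw v : ℝ) / 3 ^ (k + m) ≤ S * 2 ^ A / 3 ^ (k + m) :=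
        div_le_div_of_nonneg_right h5.2 hp.le
      linarith
  have h9 := card_int_le (by linarith) h2
  have h10 : (1 : ℝ) ≤ 2 ^ A / 3 ^ (k + m) := by
    rw [le_div_iff₀ hp, one_mul]
    exact hA
  refine h9.trans ?_
  rw [hd]
  nlinarith

end Pool.Agent.helper4.PDM
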