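import Pool.Agent.helper4.PDM.Step

/-!
# PDM-Iter: every power, and the mixing theorem

`mixT`: let `b n = l1 (n+1) (LG τ (lw K n) h)`, nonincreasing (`T_anti`), `b n ≤ l1 1 h` (`T_le`), `b (12 q) ≤ κ b q` for `q ≥ q0`
(`step` with `κ = 12 ^ (-p)`): `b n ≤ κ ^ i l1 1 h` for `12 ^ i q0 ≤ n`; choose `i` maximal, `n + 1 ≤ 12 ^ (i+1) q0`,
`κ ^ i = 12 ^ (- i p) ≤ (12 q0 / (n+1)) ^ p`; for `n < q0`: `1 ≤ (q0 / (n + 1)) ^ p`.
`mixD`: `base_per`, `base_mean`, `base_l1`.  `mixZ`: `ZE_tel`, `l1_sum_le`, `l1_up`, `mixD` with `p + 2`, `PE_norm`,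
`∑_{j ≥ m} 1 / (j+1)^(p+2) ≤ 2 / (m+1)^p`.
-/

namespace Pool.Agent.helper4.PDM

open Finset Pool.Agent.helper14.EX1

/-- The abstract iteration. -/
theorem Iter_abs {b : ℕ → ℝ} {B : ℝ} {p q0 : ℕ} (hb0 : ∀ n, 0 ≤ b n) (hB : ∀ n, b n ≤ B)
    (hanti : ∀ n n', n ≤ n' → b n' ≤ b n)
    (hstep : ∀ q, q0 ≤ q → b (12 * q) ≤ (1 / 12 : ℝ) ^ p * b q) (n : ℕ) :
    b n * (n + 1 : ℝ) ^ p ≤ (12 * q0 : ℝ) ^ p * B + B := by
  have hB0 : 0 ≤ B := (hb0 0).trans (hB 0)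
  induction n using Nat.strong_induction_on with
  | _ n ih =>
    rcases Nat.lt_or_ge n (12 * q0) with hn | hn
    · have h1 : (n + 1 : ℝ) ^ p ≤ (12 * q0 : ℝ) ^ p := by
        refine pow_le_pow_left₀ (by positivity) ?_ p
        have : n + 1 ≤ 12 * q0 := hn
        exact_mod_cast this
      have h2 : b n * (n + 1 : ℝ) ^ p ≤ B * (12 * q0 : ℝ) ^ p :=
        mul_le_mul (hB n) h1 (by positivity) hB0
      linarith
    · rcases Nat.eq_zero_or_pos n with h0 | h0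
      · subst h0
        have h1 : b 0 * ((0 : ℕ) + 1 : ℝ) ^ p ≤ B := by
          simpa using hB 0
        have h2 : 0 ≤ (12 * q0 : ℝ) ^ p * B := by positivity
        linarith
      · obtain ⟨q, hq⟩ : ∃ q, q = n / 12 := ⟨_, rfl⟩
        have hq1 : q0 ≤ q := by omega
        have hq2 : 12 * q ≤ n := by omega
        have hq3 : n + 1 ≤ 12 * (q + 1) := by omega
        have hq4 : q < n := by omega
        have h1 := (hanti (12 * q) n hq2).trans (hstep q hq1)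
        have h2 : (n + 1 : ℝ) ^ p ≤ 12 ^ p * (q + 1 : ℝ) ^ p := by
          rw [← mul_pow]
          refine pow_le_pow_left₀ (by positivity) ?_ p
          exact_mod_cast hq3
        have h3 : b n * (n + 1 : ℝ) ^ p ≤ ((1 / 12 : ℝ) ^ p * b q) * (12 ^ p * (q + 1 : ℝ) ^ p) :=
          mul_le_mul h1 h2 (by positivity) (mul_nonneg (by positivity) (hb0 q))
        have h4 : ((1 / 12 : ℝ) ^ p * b q) * (12 ^ p * (q + 1 : ℝ) ^ p) = b q * (q + 1 : ℝ) ^ p := by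
          have h5 : (1 / 12 : ℝ) ^ p * 12 ^ p = 1 := by
            rw [← mul_pow]
            norm_num
          calc ((1 / 12 : ℝ) ^ p * b q) * (12 ^ p * (q + 1 : ℝ) ^ p)
              = ((1 / 12 : ℝ) ^ p * 12 ^ p) * (b q * (q + 1 : ℝ) ^ p) := by ring
            _ = b q * (q + 1 : ℝ) ^ p := by rw [h5, one_mul]
        rw [h4] at h3
        exact h3.trans (ih q hq4)

/-- **Fine-scale mixing, every power**: unrestricted words, an arbitrary terminal family `h` (period `3`, mean zero). -/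
theorem mixT (p : ℕ) : ∃ C : ℝ, 0 ≤ C ∧ ∀ (E : Type) [NormedAddCommGroup E] [NormedSpace ℝ E]
    (τ : ℕ → E →ₗ[ℝ] E), Con τ → ∀ (K n : ℕ) (h : ℤ → E), PerV 1 h → MeanZ 0 h →
      l1 (n + 1) (LG τ (lw K n) h) ≤ C * l1 1 h / (n + 1 : ℝ) ^ p := by
  obtain ⟨q0, -, hq0⟩ := step (κ := (1 / 12 : ℝ) ^ p) (by positivity)
  refine ⟨(12 * q0 : ℝ) ^ p + 1, by positivity, ?_⟩
  intro E _ _ τ hτ K n h hh hm
  have h1 := Iter_abs (b := fun n => l1 (n + 1) (LG τ (lw K n) h)) (B := l1 1 h) (p := p) (q0 := q0)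
    (fun n => l1_nn _ _) (fun n => T_le hτ K n hh) (fun n n' hn => T_anti hτ K hn hh)
    (fun q hq => hq0 E τ hτ K q h hh hm hq) n
  rw [le_div_iff₀ (by positivity)]
  refine le_trans h1 (le_of_eq ?_)
  ring

theorem mixD (p : ℕ) : ∃ C : ℝ, 0 ≤ C ∧ ∀ (E : Type) [NormedAddCommGroup E] [NormedSpace ℝ E]
    (τ : ℕ → E →ₗ[ℝ] E), Con τ → ∀ (K n : ℕ) (e : E),
      l1 (n + 1) (DE τ K n e) ≤ C * ‖e‖ / (n + 1 : ℝ) ^ p := by
  obtain ⟨C, hC, h⟩ := mixT p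
  refine ⟨2 * C, by positivity, ?_⟩
  intro E _ _ τ hτ K n e
  have h1 := h E τ hτ K n (fun x => ZE τ K 1 e x - PE τ K 1 e) (base_per K e) (base_mean K e)
  have h2 := base_l1 hτ K e
  refine le_trans h1 (div_le_div_of_nonneg_right ?_ (by positivity))
  calc C * l1 1 (fun x => ZE τ K 1 e x - PE τ K 1 e) ≤ C * (2 * ‖e‖) :=
        mul_le_mul_of_nonneg_left h2 hC
    _ = 2 * C * ‖e‖ := by ring

theorem Iter_sq (l : ℕ) : ∑ j ∈ range l, 1 / ((j : ℝ) + 1) ^ 2 ≤ 2 := by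
  have key : ∀ l : ℕ, ∑ j ∈ range (l + 1), 1 / ((j : ℝ) + 1) ^ 2 ≤ 2 - 1 / ((l : ℝ) + 1) := by
    intro l
    induction l with
    | zero => norm_num
    | succ l ih =>
      rw [sum_range_succ]
      have h1 : 1 / (((l + 1 : ℕ) : ℝ) + 1) ^ 2 ≤ 1 / ((l : ℝ) + 1) - 1 / (((l + 1 : ℕ) : ℝ) + 1) := by
        push_cast
        have h2 : 1 / ((l : ℝ) + 1) - 1 / ((l : ℝ) + 1 + 1) = 1 / (((l : ℝ) + 1) * ((l : ℝ) + 1 + 1)) := by
          field_simp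
          ring
        rw [h2]
        refine one_div_le_one_div_of_le (by positivity) ?_
        have : (0 : ℝ) ≤ l := by positivity
        nlinarith
      linarith
  rcases l with _ | l
  · simp
  · have h1 := key l
    have h2 : 0 ≤ 1 / ((l : ℝ) + 1) := by positivity
    linarith

/-- `ZE l` is close in `L¹` to the function with the first `m` digits only. -/
theorem mixZ (p : ℕ) : ∃ C : ℝ, 0 ≤ C ∧ ∀ (E : Type) [NormedAddCommGroup E] [NormedSpace ℝ E]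
    (τ : ℕ → E →ₗ[ℝ] E), Con τ → ∀ (K m l : ℕ) (e : E), m ≤ l →
      l1 l (fun x => ZE τ K l e x - ZE τ K m (PE τ K (l - m) e) x) ≤ C * ‖e‖ / (m + 1 : ℝ) ^ p := by
  obtain ⟨C, hC, h⟩ := mixD (p + 2)
  refine ⟨2 * C, by positivity, ?_⟩
  intro E _ _ τ hτ K m l e hml
  have e1 : (fun x => ZE τ K l e x - ZE τ K m (PE τ K (l - m) e) x) =
      fun x => ∑ j ∈ Ico m l, DE τ K j (PE τ K (l - 1 - j) e) x :=
    funext fun x => ZE_tel hτ K hml e x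
  rw [e1]
  have h1 : l1 l (fun x => ∑ j ∈ Ico m l, DE τ K j (PE τ K (l - 1 - j) e) x) ≤
      ∑ j ∈ Ico m l, l1 l (DE τ K j (PE τ K (l - 1 - j) e)) := l1_sum_le l _ _
  have h2 : ∀ j ∈ Ico m l, l1 l (DE τ K j (PE τ K (l - 1 - j) e)) ≤
      C * ‖e‖ / (m + 1 : ℝ) ^ p * (1 / ((j : ℝ) + 1) ^ 2) := by
    intro j hj
    rw [mem_Ico] at hj
    rw [l1_up (q := j + 1) (by omega) (DE_per K j _)]
    refine (h E τ hτ K j (PE τ K (l - 1 - j) e)).trans ?_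
    have h3 := PE_norm hτ K (l - 1 - j) e
    have h4 : (m + 1 : ℝ) ^ p * ((j : ℝ) + 1) ^ 2 ≤ (j + 1 : ℝ) ^ (p + 2) := by
      rw [pow_add]
      refine mul_le_mul_of_nonneg_right ?_ (by positivity)
      refine pow_le_pow_left₀ (by positivity) ?_ p
      have : (m : ℝ) ≤ j := by exact_mod_cast hj.1
      linarith
    have h5 : C * ‖e‖ / (m + 1 : ℝ) ^ p * (1 / ((j : ℝ) + 1) ^ 2) =
        C * ‖e‖ / ((m + 1 : ℝ) ^ p * ((j : ℝ) + 1) ^ 2) := by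
      rw [div_mul_div_comm, mul_one]
    rw [h5]
    exact div_le_div₀ (by positivity) (mul_le_mul_of_nonneg_left h3 hC) (by positivity) h4
  refine h1.trans ((sum_le_sum h2).trans ?_)
  rw [← mul_sum]
  have h6 : ∑ j ∈ Ico m l, 1 / ((j : ℝ) + 1) ^ 2 ≤ 2 := by
    refine le_trans (sum_le_sum_of_subset_of_nonneg (t := range l) ?_ ?_) (Iter_sq l)
    · intro j hj
      rw [mem_Ico] at hj
      rw [mem_range]
      exact hj.2
    · intro j _ _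
      positivity
  calc C * ‖e‖ / (m + 1 : ℝ) ^ p * ∑ j ∈ Ico m l, 1 / ((j : ℝ) + 1) ^ 2
      ≤ C * ‖e‖ / (m + 1 : ℝ) ^ p * 2 := mul_le_mul_of_nonneg_left h6 (by positivity)
    _ = 2 * C * ‖e‖ / (m + 1 : ℝ) ^ p := by ring

end Pool.Agent.helper4.PDM
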