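import Pool.Agent.helper4.PDM.Grp

/-!
# PDM-Linf: from `L¹` to EVERY integer root

`G`: words of length `k` with `|Gw u| ≤ S 2 ^ sum` and sums in `I`, `3 ^ (k + m) ≤ 2 ^ A` for `A ∈ I`.  For one `A`:
`∑_{u ∈ G, sum = A, Ala x u} ww u * g A (nd x u) = ∑_{e < 3 ^ m} (3 ^ k / 2 ^ A) card (Cls G x A m e) g A e` (period `3 ^ m`)
`≤ (2 S + 1) avg m (g A)` by `cls_le`.
-/

namespace Pool.Agent.helper4.PDM

open Finset Pool.Agent.helper14.EX1

theorem Linf_word {k m : ℕ} {v : List ℕ} (hv : v.length = k) {I : Finset ℕ} (hI : v.sum ∈ I)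
    {g : ℕ → ℤ → ℝ} (hg : ∀ A, Per m (g A)) (x : ℤ) :
    (if Ala x v then ww v * g v.sum (nd x v) else 0) =
      ∑ A ∈ I, ∑ e ∈ range (3 ^ m),
        (if Ala x v ∧ v.sum = A ∧ (3 : ℤ) ^ m ∣ nd x v - (e : ℤ) then 3 ^ k / 2 ^ A * g A (e : ℤ) else 0) := by
  rw [Finset.sum_eq_single_of_mem v.sum hI]
  · by_cases ha : Ala x v
    · rw [if_pos ha, per_decomp (hg v.sum) (nd x v), Finset.mul_sum]
      refine Finset.sum_congr rfl fun e _ => ?_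
      unfold ww ind
      rw [hv]
      by_cases hd : (3 : ℤ) ^ m ∣ nd x v - (e : ℤ)
      · rw [if_pos hd, if_pos ⟨ha, rfl, hd⟩, mul_one]
      · rw [if_neg hd, if_neg (fun h => hd h.2.2), mul_zero, mul_zero]
    · rw [if_neg ha]
      symm
      exact Finset.sum_eq_zero fun e _ => if_neg (fun h => ha h.1)
  · intro A _ hA
    exact Finset.sum_eq_zero fun e _ => if_neg (fun h => hA h.2.1.symm)

theorem linf {G : Finset (List ℕ)} {k m : ℕ} (hG : ∀ v ∈ G, v.length = k ∧ ∀ b ∈ v, 1 ≤ b) {S : ℝ}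
    (hS : 0 ≤ S) (hs : ∀ v ∈ G, |(Gw v : ℝ)| ≤ S * 2 ^ v.sum) {I : Finset ℕ}
    (hI : ∀ v ∈ G, v.sum ∈ I) (hA : ∀ A ∈ I, (3 : ℝ) ^ (k + m) ≤ 2 ^ A) {g : ℕ → ℤ → ℝ}
    (hg : ∀ A, Per m (g A)) (h0 : ∀ A x, 0 ≤ g A x) (x : ℤ) :
    ∑ v ∈ G, (if Ala x v then ww v * g v.sum (nd x v) else 0) ≤
      (2 * S + 1) * ∑ A ∈ I, avg m (g A) := by
  have h1 : ∑ v ∈ G, (if Ala x v then ww v * g v.sum (nd x v) else 0) =
      ∑ A ∈ I, ∑ e ∈ range (3 ^ m), ((Cls G x A m (e : ℤ)).card : ℝ) * (3 ^ k / 2 ^ A * g A (e : ℤ)) := by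
    rw [Finset.sum_congr rfl fun v hv => Linf_word (hG v hv).1 (hI v hv) hg x, Finset.sum_comm]
    refine Finset.sum_congr rfl fun A _ => ?_
    rw [Finset.sum_comm]
    refine Finset.sum_congr rfl fun e _ => ?_
    rw [← Finset.sum_filter, Finset.sum_const, nsmul_eq_mul]
    unfold Cls
    congr!
  rw [h1, Finset.mul_sum]
  refine Finset.sum_le_sum fun A hAI => ?_
  have h2 : (2 * S + 1) * avg m (g A) =
      ∑ e ∈ range (3 ^ m), ((2 * S + 1) * (2 ^ A / 3 ^ (k + m))) * (3 ^ k / 2 ^ A * g A (e : ℤ)) := by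
    unfold avg
    rw [← Finset.mul_sum, ← Finset.mul_sum]
    have e2 : (2 : ℝ) ^ A ≠ 0 := by positivity
    have e3 : (3 : ℝ) ^ k ≠ 0 := by positivity
    have e4 : (3 : ℝ) ^ m ≠ 0 := by positivity
    rw [pow_add]
    field_simp
  rw [h2]
  refine Finset.sum_le_sum fun e _ => ?_
  exact mul_le_mul_of_nonneg_right (cls_le hG hS hs x (hA A hAI) (e : ℤ))
    (mul_nonneg (by positivity) (h0 A _))

end Pool.Agent.helper4.PDM
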