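import Pool.Agent.helper4.PDM.Vec
import Pool.Agent.helper14.EX1.Wrd

/-!
# PDM-Op: the transfer operator of a set of words

`LG_add`: `lw K (k + l)` is the set of the `u ++ v`, `u ∈ lw K k`, `v ∈ lw K l` (induction on `k` with `sum_lw_succ`), `nd_append`,
`ala_append`, `ww_append`, `List.sum_append`.  `LG_per`: `nd_shift`, `ala_shift`, `perV_mul`.  `LG_l1`: triangle inequality, and for
each word `v` of length `k`: `∑_{x < 3 ^ (n + k)} [Ala x v] ‖h (nd x v)‖ = ∑_{z < 3 ^ n} ‖h z‖` (`sum_split k n`, `ala_shift`,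
`nd_shift` with `q = 0`, `sum_affine`, `ala_count`), `ww v / 3 ^ k = (1/2) ^ sum`.
-/

namespace Pool.Agent.helper4.PDM

open Finset Pool.Agent.helper14.EX1

variable {E : Type} [NormedAddCommGroup E] [NormedSpace ℝ E] {τ : ℕ → E →ₗ[ℝ] E}

theorem Op_succ (K n : ℕ) {M : Type} [AddCommMonoid M] (F : List ℕ → M) :
    ∑ v ∈ lw K (n + 1), F v = ∑ k ∈ Icc 1 K, ∑ v ∈ lw K n, F (k :: v) := by
  rw [lw, sum_image, sum_product]
  rintro ⟨a, b⟩ _ ⟨c, d⟩ _ h
  simp only [List.cons.injEq] at h
  exact Prod.ext h.1 h.2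

/-- Sums over the words of length `k + l`. -/
theorem sum_lw_add (K k l : ℕ) {M : Type} [AddCommMonoid M] (F : List ℕ → M) :
    ∑ v ∈ lw K (k + l), F v = ∑ u ∈ lw K k, ∑ v ∈ lw K l, F (u ++ v) := by
  induction k generalizing F with
  | zero =>
    rw [zero_add]
    simp [lw]
  | succ k ih =>
    have e : k + 1 + l = (k + l) + 1 := by ring
    rw [e, Op_succ, Op_succ]
    refine sum_congr rfl fun a _ => ?_
    rw [ih]
    rfl

theorem LG_add (hτ : Con τ) (K k l : ℕ) (h : ℤ → E) :
    LG τ (lw K (k + l)) h = LG τ (lw K k) (LG τ (lw K l) h) := by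
  funext x
  unfold LG
  rw [sum_lw_add]
  refine sum_congr rfl fun u _ => ?_
  by_cases hu : Ala x u
  · rw [if_pos hu, map_sum, smul_sum]
    refine sum_congr rfl fun v _ => ?_
    by_cases hv : Ala (nd x u) v
    · rw [if_pos ((ala_append x u v).mpr ⟨hu, hv⟩), if_pos hv, ww_append, List.sum_append, hτ.add,
        nd_append, map_smul, smul_smul]
    · rw [if_neg (fun h1 => hv ((ala_append x u v).mp h1).2), if_neg hv, map_zero, smul_zero]
  · rw [if_neg hu]
    exact sum_eq_zero fun v _ => if_neg (fun h1 => hu ((ala_append x u v).mp h1).1)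

/-- The words of `G` have length `k` and letters `≥ 1`. -/
theorem LG_per {G : Finset (List ℕ)} {k n : ℕ} (hG : ∀ v ∈ G, v.length = k) {h : ℤ → E}
    (hh : PerV n h) : PerV (n + k) (LG τ G h) := by
  intro x
  unfold LG
  refine sum_congr rfl fun v hv => ?_
  have hk := hG v hv
  have e1 : x + 3 ^ (n + k) = x + 3 ^ v.length * 3 ^ n := by
    rw [hk, pow_add]
    ring
  have e2 : x + 3 ^ (n + k) = x + 3 ^ (n + v.length) * 1 := by rw [hk, mul_one]
  have h1 : Ala (x + 3 ^ (n + k)) v ↔ Ala x v := by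
    rw [e1]
    exact ala_shift v x _
  have h2 : h (nd (x + 3 ^ (n + k)) v) = h (nd x v) := by
    rw [e2, nd_shift, perV_mul hh]
  rw [h2]
  exact if_congr h1 rfl rfl

theorem Op_ww {v : List ℕ} {k : ℕ} (hk : v.length = k) : ww v / 3 ^ k = (1 / 2) ^ v.sum := by
  unfold ww
  rw [hk, div_div, mul_comm, ← div_div, div_self (by positivity), one_div, one_div, inv_pow]

/-- one word -/
theorem Op_word {v : List ℕ} {k n : ℕ} (hk : v.length = k) (hv : ∀ b ∈ v, 1 ≤ b) {φ : ℤ → ℝ}
    (hφ : Per n φ) : avg (n + k) (fun x => if Ala x v then φ (nd x v) else 0) =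
      avg n φ * (1 / 3 ^ k) := by
  rw [add_comm n k, avg_split]
  have h1 : (fun r : ℤ => avg n (fun z => if Ala (r + 3 ^ k * z) v then
      φ (nd (r + 3 ^ k * z) v) else 0)) = fun r => avg n φ * (if Ala r v then (1 : ℝ) else 0) := by
    funext r
    by_cases hr : Ala r v
    · have h2 : (fun z : ℤ => if Ala (r + 3 ^ k * z) v then φ (nd (r + 3 ^ k * z) v) else 0) =
          fun z => φ (2 ^ v.sum * z + nd r v) := by
        funext z
        have h3 : Ala (r + 3 ^ k * z) v := by
          rw [← hk]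
          exact (ala_shift v r z).mpr hr
        have h4 := nd_shift v 0 r z
        rw [zero_add, hk, pow_zero, one_mul] at h4
        rw [if_pos h3, h4, add_comm]
      rw [h2, avg_aff hφ, if_pos hr, mul_one]
    · have h2 : (fun z : ℤ => if Ala (r + 3 ^ k * z) v then φ (nd (r + 3 ^ k * z) v) else 0) =
          fun _ => 0 := by
        funext z
        refine if_neg fun h3 => hr ?_
        rw [← hk] at h3
        exact (ala_shift v r z).mp h3
      rw [h2, avg_const, if_neg hr, mul_zero]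
  rw [h1, avg_smul, ← hk, avg_ala v hv]

theorem LG_l1 (hτ : Con τ) {G : Finset (List ℕ)} {k n : ℕ} (hG : ∀ v ∈ G, v.length = k ∧ ∀ b ∈ v, 1 ≤ b)
    {h : ℤ → E} (hh : PerV n h) : l1 (n + k) (LG τ G h) ≤ pr G * l1 n h := by
  have h1 : l1 (n + k) (LG τ G h) ≤
      ∑ v ∈ G, l1 (n + k) (fun x => if Ala x v then ww v • τ v.sum (h (nd x v)) else 0) :=
    l1_sum_le (n + k) G (fun v x => if Ala x v then ww v • τ v.sum (h (nd x v)) else 0)
  refine h1.trans ?_
  unfold pr
  rw [sum_mul]
  refine sum_le_sum fun v hv => ?_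
  obtain ⟨hk, hb⟩ := hG v hv
  have h2 : l1 (n + k) (fun x => if Ala x v then ww v • τ v.sum (h (nd x v)) else 0) ≤
      avg (n + k) (fun x => ww v * (if Ala x v then ‖h (nd x v)‖ else 0)) := by
    refine avg_mono fun x => ?_
    show ‖(if Ala x v then ww v • τ v.sum (h (nd x v)) else 0 : E)‖ ≤
      ww v * (if Ala x v then ‖h (nd x v)‖ else 0)
    by_cases hx : Ala x v
    · rw [if_pos hx, if_pos hx, norm_smul, Real.norm_eq_abs, abs_of_pos (ww_pos v)]
      exact mul_le_mul_of_nonneg_left (hτ.norm _ _) (ww_pos v).le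
    · rw [if_neg hx, if_neg hx, norm_zero, mul_zero]
  refine h2.trans (le_of_eq ?_)
  rw [avg_smul, Op_word hk hb (perV_norm hh), ← Op_ww hk]
  unfold l1
  ring

theorem LG_sum {G : Finset (List ℕ)} {ι : Type} (s : Finset ι) (h : ι → ℤ → E) (x : ℤ) :
    LG τ G (fun y => ∑ i ∈ s, h i y) x = ∑ i ∈ s, LG τ G (h i) x := by
  unfold LG
  rw [sum_comm]
  refine sum_congr rfl fun v _ => ?_
  by_cases hx : Ala x v
  · simp only [if_pos hx]
    rw [map_sum, smul_sum]
  · simp only [if_neg hx]
    rw [sum_const_zero]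

theorem LG_sub {G : Finset (List ℕ)} (g h : ℤ → E) (x : ℤ) :
    LG τ G (fun y => g y - h y) x = LG τ G g x - LG τ G h x := by
  unfold LG
  rw [← sum_sub_distrib]
  refine sum_congr rfl fun v _ => ?_
  by_cases hx : Ala x v
  · simp only [if_pos hx]
    rw [map_sub, smul_sub]
  · simp only [if_neg hx]
    rw [sub_zero]

theorem LG_smul {G : Finset (List ℕ)} (c : ℝ) (h : ℤ → E) (x : ℤ) :
    LG τ G (fun y => c • h y) x = c • LG τ G h x := by
  unfold LG
  rw [smul_sum]
  refine sum_congr rfl fun v _ => ?_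
  by_cases hx : Ala x v
  · simp only [if_pos hx]
    rw [map_smul, smul_comm]
  · simp only [if_neg hx]
    rw [smul_zero]

/-- Splitting the set of words. -/
theorem LG_union {G H : Finset (List ℕ)} (hGH : Disjoint G H) (h : ℤ → E) (x : ℤ) :
    LG τ (G ∪ H) h x = LG τ G h x + LG τ H h x := by
  unfold LG
  exact sum_union hGH

theorem pr_nn (G : Finset (List ℕ)) : 0 ≤ pr G := by
  unfold pr
  exact sum_nonneg fun _ _ => by positivity

theorem pr_mono {G H : Finset (List ℕ)} (h : G ⊆ H) : pr G ≤ pr H := by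
  unfold pr
  exact sum_le_sum_of_subset_of_nonneg h fun _ _ _ => by positivity

theorem pr_lw_le (K n : ℕ) : pr (lw K n) ≤ 1 := by
  induction n with
  | zero => simp [pr, lw]
  | succ n ih =>
    have h1 : pr (lw K (n + 1)) = th K * pr (lw K n) := by
      unfold pr
      rw [sum_lw_succ, ← th_eq, sum_mul_sum]
      refine sum_congr rfl fun k _ => sum_congr rfl fun v _ => ?_
      rw [List.sum_cons, pow_add]
    have h2 := th_lt_one K
    have h3 := pr_nn (lw K n)
    rw [h1]
    nlinarith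

/-- The mean mass of a set of words of length `k`. -/
theorem avg_ww {G : Finset (List ℕ)} {k : ℕ} (hG : ∀ v ∈ G, v.length = k ∧ ∀ b ∈ v, 1 ≤ b) :
    avg k (fun x => ∑ v ∈ G, if Ala x v then ww v else 0) = pr G := by
  rw [avg_sum k G (fun v x => if Ala x v then ww v else 0)]
  unfold pr
  refine sum_congr rfl fun v hv => ?_
  obtain ⟨hk, hb⟩ := hG v hv
  have h1 : (fun x : ℤ => if Ala x v then ww v else 0) =
      fun x => ww v * (if Ala x v then (1 : ℝ) else 0) := by
    funext x
    split_ifs <;> ring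
  rw [h1, avg_smul, ← Op_ww hk, ← hk, avg_ala v hb]
  ring

end Pool.Agent.helper4.PDM
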