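import Pool.Agent.helper4.PDM.StepA
import Pool.Agent.helper4.PDM.Badp
import Pool.Agent.helper4.PDM.Dif

/-!
# PDM-Step: the contraction

Given `κ`: choose `S ≥ 1` with `25 / sqrt S ≤ κ / 4`, then `ε ≤ 1/20` with `(2 S + 1) * 20 ε ≤ (κ/4)^2`, then `q0` with
`C ρ ^ (10 q0) ≤ κ / 4` (`bad_pr`) and `(2 S + 1) / q0 ≤ (κ/4)^2`.  `k = 10 q`, `m = 2 q`, `J = Ico q (2 q)`, `G = Gd K k S ε`,
`I` = the integers `A` with `|A - 20 q| ≤ 10 ε q` (at most `20 ε q + 1`); `3 ^ (12 q) ≤ 2 ^ A` as `A ≥ 19.5 q` and `3 ^ 24 ≤ 2 ^ 39`.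
Let `D j = LG τ (lw K j) h` (`T_per`, `T_mean`), `b = l1 (q+1) (D q)`, so `l1 (j+1) (D j) ≤ b` for `j ≥ q` (`T_anti`).
For `j ∈ J`: `l1 (D (12 q)) ≤ l1 (D (10 q + j))` (`T_anti`), `D (10 q + j) = LG τ (lw K k) (D j)` (`LG_add`)
`= LG τ G (D j) + LG τ (lw K k \ G) (D j)` (`LG_union`), `l1 (LG τ (bad) (D j)) ≤ pr bad * b` (`LG_l1`); all `l1` may be taken with
`12 q + 1` digits (`l1_up`).  `stepA`; sum over the `q` values of `j` and divide by `q`: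
`l1 (D (12 q)) ≤ (pr bad + sqrt ((2 S + 1) (20 ε q + 1) / q)) b ≤ (κ/4 + κ/4 + sqrt 2 κ/4) b ≤ κ b`.
-/

namespace Pool.Agent.helper4.PDM

open Finset Pool.Agent.helper14.EX1

theorem Step_exists_S {κ : ℝ} (hκ : 0 < κ) : ∃ S : ℝ, 1 ≤ S ∧ 25 / Real.sqrt S ≤ κ / 4 := by
  refine ⟨max 1 ((100 / κ) ^ 2), le_max_left _ _, ?_⟩
  have h1 : 100 / κ ≤ Real.sqrt (max 1 ((100 / κ) ^ 2)) :=
    Real.le_sqrt_of_sq_le (le_max_right _ _)
  have h2 : 0 < 100 / κ := by positivity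
  calc 25 / Real.sqrt (max 1 ((100 / κ) ^ 2)) ≤ 25 / (100 / κ) :=
        div_le_div_of_nonneg_left (by norm_num) h2 h1
    _ = κ / 4 := by field_simp; norm_num

theorem Step_pow {q A : ℕ} (h : 39 * q ≤ 2 * A) : (3 : ℝ) ^ (10 * q + 2 * q) ≤ 2 ^ A := by
  have h0 : (3 : ℝ) ^ 24 ≤ 2 ^ 39 := by norm_num
  have h1 : ((3 : ℝ) ^ (10 * q + 2 * q)) ^ 2 ≤ (2 ^ A) ^ 2 := by
    calc ((3 : ℝ) ^ (10 * q + 2 * q)) ^ 2 = ((3 : ℝ) ^ 24) ^ q := by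
          rw [← pow_mul, ← pow_mul]; congr 1; ring
      _ ≤ (2 ^ 39) ^ q := pow_le_pow_left₀ (by positivity) h0 q
      _ = 2 ^ (39 * q) := by rw [← pow_mul]
      _ ≤ 2 ^ (2 * A) := pow_le_pow_right₀ (by norm_num) h
      _ = (2 ^ A) ^ 2 := by rw [← pow_mul]; congr 1; ring
  exact (pow_le_pow_iff_left₀ (by positivity) (by positivity) (by norm_num)).1 h1

/-- the integers near `20 q` -/
noncomputable def Step_I (q : ℕ) (ε : ℝ) : Finset ℕ :=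
  Icc ⌈20 * (q : ℝ) - 10 * ε * q⌉₊ ⌊20 * (q : ℝ) + 10 * ε * q⌋₊

theorem Step_I_mem {q A : ℕ} {ε : ℝ} (h : |(A : ℝ) - 2 * ((10 * q : ℕ) : ℝ)| ≤ ε * ((10 * q : ℕ) : ℝ)) :
    A ∈ Step_I q ε := by
  rw [abs_le] at h
  push_cast at h
  rw [Step_I, mem_Icc]
  refine ⟨Nat.ceil_le.2 (by linarith [h.1]), Nat.le_floor (by linarith [h.2])⟩

theorem Step_I_card {q : ℕ} {ε : ℝ} (hε : 0 ≤ ε) : ((Step_I q ε).card : ℝ) ≤ 20 * ε * q + 1 := by
  have hq : (0 : ℝ) ≤ q := Nat.cast_nonneg q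
  have h0 : 0 ≤ ε * q := mul_nonneg hε hq
  rw [Step_I, Nat.card_Icc]
  rcases le_total ⌈20 * (q : ℝ) - 10 * ε * q⌉₊ (⌊20 * (q : ℝ) + 10 * ε * q⌋₊ + 1) with h | h
  · rw [Nat.cast_sub h]
    push_cast
    have h1 : (⌊20 * (q : ℝ) + 10 * ε * q⌋₊ : ℝ) ≤ 20 * (q : ℝ) + 10 * ε * q :=
      Nat.floor_le (by nlinarith)
    have h2 : 20 * (q : ℝ) - 10 * ε * q ≤ (⌈20 * (q : ℝ) - 10 * ε * q⌉₊ : ℝ) := Nat.le_ceil _
    linarith
  · rw [Nat.sub_eq_zero_of_le h]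
    push_cast
    nlinarith

theorem Step_I_pow {q A : ℕ} {ε : ℝ} (hε : ε ≤ 1 / 20) (h : A ∈ Step_I q ε) :
    (3 : ℝ) ^ (10 * q + 2 * q) ≤ 2 ^ A := by
  apply Step_pow
  have hq : (0 : ℝ) ≤ q := Nat.cast_nonneg q
  rw [Step_I, mem_Icc] at h
  have h1 := Nat.ceil_le.1 h.1
  have h2 : (39 : ℝ) * q ≤ 2 * A := by nlinarith
  exact_mod_cast h2

section

variable {E : Type} [NormedAddCommGroup E] [NormedSpace ℝ E] {τ : ℕ → E →ₗ[ℝ] E}

theorem Step_Gd_sub (K k : ℕ) (S ε : ℝ) : Gd K k S ε ⊆ lw K k := by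
  unfold Gd
  exact filter_subset _ _

theorem Step_Gd_mem {K k : ℕ} {S ε : ℝ} {v : List ℕ} (hv : v ∈ Gd K k S ε) :
    |(Gw v : ℝ)| ≤ S * 2 ^ v.sum ∧ |(v.sum : ℝ) - 2 * k| ≤ ε * k := by
  unfold Gd at hv
  exact (mem_filter.1 hv).2

theorem Step_one (hτ : Con τ) {K q j : ℕ} {h : ℤ → E} (hh : PerV 1 h) (hj : q ≤ j) (hj2 : j < 2 * q)
    {G : Finset (List ℕ)} (hG : G ⊆ lw K (10 * q)) :
    l1 (12 * q + 1) (LG τ (lw K (12 * q)) h) ≤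
      l1 (10 * q + 2 * q) (LG τ G (LG τ (lw K j) h)) +
        pr (lw K (10 * q) \ G) * l1 (q + 1) (LG τ (lw K q) h) := by
  have e1 : LG τ (lw K (10 * q + j)) h = LG τ (lw K (10 * q)) (LG τ (lw K j) h) :=
    LG_add hτ K (10 * q) j h
  have hlen : ∀ n, ∀ v ∈ lw K n, v.length = n ∧ ∀ b ∈ v, 1 ≤ b := by
    intro n v hv
    have := mem_lw.1 hv
    exact ⟨this.1, fun b hb => (this.2 b hb).1⟩
  have hD : PerV (j + 1) (LG τ (lw K j) h) := T_per K j hh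
  have h1 : l1 (12 * q + 1) (LG τ (lw K (12 * q)) h) ≤
      l1 (10 * q + j + 1) (LG τ (lw K (10 * q + j)) h) := T_anti hτ K (by omega) hh
  have h2 : l1 (10 * q + 2 * q) (LG τ (lw K (10 * q + j)) h) =
      l1 (10 * q + j + 1) (LG τ (lw K (10 * q + j)) h) :=
    l1_up (by omega) (T_per K (10 * q + j) hh)
  rw [← h2, e1] at h1
  have e2 : LG τ (lw K (10 * q)) (LG τ (lw K j) h) = fun x =>
      LG τ G (LG τ (lw K j) h) x + LG τ (lw K (10 * q) \ G) (LG τ (lw K j) h) x := by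
    funext x
    rw [← LG_union disjoint_sdiff, union_sdiff_of_subset hG]
  rw [e2] at h1
  refine (h1.trans (l1_add_le _ _ _)).trans (add_le_add le_rfl ?_)
  have hb : ∀ v ∈ lw K (10 * q) \ G, v.length = 10 * q ∧ ∀ b ∈ v, 1 ≤ b :=
    fun v hv => hlen _ v (mem_sdiff.1 hv).1
  have h3 : l1 (10 * q + 2 * q) (LG τ (lw K (10 * q) \ G) (LG τ (lw K j) h)) =
      l1 (j + 1 + 10 * q) (LG τ (lw K (10 * q) \ G) (LG τ (lw K j) h)) :=
    l1_up (by omega) (LG_per (fun v hv => (hb v hv).1) hD)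
  rw [h3]
  refine (LG_l1 hτ hb hD).trans (mul_le_mul_of_nonneg_left ?_ (pr_nn _))
  exact T_anti hτ K hj hh

theorem Step_sum (hτ : Con τ) {K q : ℕ} (hq : 1 ≤ q) {h : ℤ → E} (hh : PerV 1 h) (hm : MeanZ 0 h)
    {S ε : ℝ} (hS : 0 ≤ S) (hε : 0 ≤ ε) (hε' : ε ≤ 1 / 20) :
    l1 (12 * q + 1) (LG τ (lw K (12 * q)) h) ≤
      (Real.sqrt ((2 * S + 1) * (20 * ε + 1 / q)) + pr (lw K (10 * q) \ Gd K (10 * q) S ε)) *
        l1 (q + 1) (LG τ (lw K q) h) := by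
  set b := l1 (q + 1) (LG τ (lw K q) h) with hb
  have hb0 : 0 ≤ b := l1_nn _ _
  have hq' : (0 : ℝ) < q := by exact_mod_cast hq
  have hG : Gd K (10 * q) S ε ⊆ lw K (10 * q) := Step_Gd_sub _ _ _ _
  have h1 := stepA (J := Ico q (2 * q)) (h := fun j => LG τ (lw K j) h) hτ hG hS
    (fun v hv => (Step_Gd_mem hv).1) (I := Step_I q ε)
    (fun v hv => Step_I_mem (Step_Gd_mem hv).2) (m := 2 * q)
    (fun A hA => Step_I_pow hε' hA) (fun j hj => (mem_Ico.1 hj).2)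
    (fun j _ => T_per K j hh) (fun j _ => T_mean K j hh hm) hb0
    (fun j hj => T_anti hτ K (mem_Ico.1 hj).1 hh)
  have hcard : (Ico q (2 * q)).card = q := by rw [Nat.card_Ico]; omega
  rw [hcard] at h1
  have h2 : (q : ℝ) * l1 (12 * q + 1) (LG τ (lw K (12 * q)) h) ≤
      b * Real.sqrt (q * (2 * S + 1) * (Step_I q ε).card) +
        q * (pr (lw K (10 * q) \ Gd K (10 * q) S ε) * b) := by
    calc (q : ℝ) * l1 (12 * q + 1) (LG τ (lw K (12 * q)) h)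
        = ∑ j ∈ Ico q (2 * q), l1 (12 * q + 1) (LG τ (lw K (12 * q)) h) := by
          rw [sum_const, hcard, nsmul_eq_mul]
      _ ≤ ∑ j ∈ Ico q (2 * q), (l1 (10 * q + 2 * q) (LG τ (Gd K (10 * q) S ε) (LG τ (lw K j) h)) +
            pr (lw K (10 * q) \ Gd K (10 * q) S ε) * b) :=
          sum_le_sum fun j hj => Step_one hτ hh (mem_Ico.1 hj).1 (mem_Ico.1 hj).2 hG
      _ = (∑ j ∈ Ico q (2 * q), l1 (10 * q + 2 * q) (LG τ (Gd K (10 * q) S ε) (LG τ (lw K j) h))) +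
            q * (pr (lw K (10 * q) \ Gd K (10 * q) S ε) * b) := by
          rw [sum_add_distrib, sum_const, hcard, nsmul_eq_mul]
      _ ≤ _ := add_le_add h1 le_rfl
  have h3 : Real.sqrt (q * (2 * S + 1) * (Step_I q ε).card) ≤
      q * Real.sqrt ((2 * S + 1) * (20 * ε + 1 / q)) := by
    have e : (q : ℝ) * Real.sqrt ((2 * S + 1) * (20 * ε + 1 / q)) =
        Real.sqrt ((q : ℝ) ^ 2 * ((2 * S + 1) * (20 * ε + 1 / q))) := by
      rw [Real.sqrt_mul (x := (q : ℝ) ^ 2) (by positivity), Real.sqrt_sq hq'.le]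
    rw [e]
    apply Real.sqrt_le_sqrt
    have e2 : (q : ℝ) ^ 2 * ((2 * S + 1) * (20 * ε + 1 / q)) =
        q * (2 * S + 1) * (20 * ε * q + 1) := by
      field_simp
    rw [e2]
    exact mul_le_mul_of_nonneg_left (Step_I_card hε) (by positivity)
  have h4 : (q : ℝ) * l1 (12 * q + 1) (LG τ (lw K (12 * q)) h) ≤
      q * ((Real.sqrt ((2 * S + 1) * (20 * ε + 1 / q)) +
        pr (lw K (10 * q) \ Gd K (10 * q) S ε)) * b) := by
    have h5 := mul_le_mul_of_nonneg_left h3 hb0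
    calc _ ≤ _ := h2
      _ ≤ b * (q * Real.sqrt ((2 * S + 1) * (20 * ε + 1 / q))) +
        q * (pr (lw K (10 * q) \ Gd K (10 * q) S ε) * b) := add_le_add h5 le_rfl
      _ = _ := by ring
  exact le_of_mul_le_mul_left h4 hq'

end

theorem step {κ : ℝ} (hκ : 0 < κ) : ∃ q0 : ℕ, 1 ≤ q0 ∧ ∀ (E : Type) [NormedAddCommGroup E]
    [NormedSpace ℝ E] (τ : ℕ → E →ₗ[ℝ] E), Con τ → ∀ (K q : ℕ) (h : ℤ → E), PerV 1 h → MeanZ 0 h →
      q0 ≤ q → l1 (12 * q + 1) (LG τ (lw K (12 * q)) h) ≤ κ * l1 (q + 1) (LG τ (lw K q) h) := by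
  obtain ⟨S, hS1, hS⟩ := Step_exists_S hκ
  have hS0 : 0 ≤ S := by linarith
  have hS2 : 0 < 2 * S + 1 := by linarith
  -- the choice of `ε`
  set δ : ℝ := (κ / 4) ^ 2 with hδ
  have hδ0 : 0 < δ := by positivity
  obtain ⟨ε, hε0, hε1, hε2⟩ : ∃ ε : ℝ, 0 < ε ∧ ε ≤ 1 / 20 ∧ (2 * S + 1) * (20 * ε) ≤ δ := by
    refine ⟨min (1 / 20) (δ / (20 * (2 * S + 1))), by positivity, min_le_left _ _, ?_⟩
    calc (2 * S + 1) * (20 * min (1 / 20) (δ / (20 * (2 * S + 1))))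
        ≤ (2 * S + 1) * (20 * (δ / (20 * (2 * S + 1)))) := by
          have := min_le_right (1 / 20) (δ / (20 * (2 * S + 1)))
          nlinarith
      _ = δ := by field_simp
  obtain ⟨ρ, C, hρ0, hρ1, hC, hbad⟩ := bad_pr hε0
  -- the choice of `q0`
  obtain ⟨q1, hq1⟩ : ∃ q1 : ℕ, ∀ q, q1 ≤ q → C * ρ ^ q ≤ κ / 4 := by
    have ht : Filter.Tendsto (fun q : ℕ => C * ρ ^ q) Filter.atTop (nhds (C * 0)) :=
      (tendsto_pow_atTop_nhds_zero_of_lt_one hρ0.le hρ1).const_mul C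
    rw [mul_zero] at ht
    have := ht.eventually (gt_mem_nhds (show (0 : ℝ) < κ / 4 by positivity))
    obtain ⟨q1, h1⟩ := Filter.eventually_atTop.1 this
    exact ⟨q1, fun q hq => (h1 q hq).le⟩
  obtain ⟨q2, hq2⟩ := exists_nat_ge ((2 * S + 1) / δ)
  refine ⟨max 1 (max q1 q2), le_max_left _ _, ?_⟩
  intro E _ _ τ hτ K q h hh hm hq
  have hqa : 1 ≤ q := le_trans (le_max_left _ _) hq
  have hqb : q1 ≤ q := le_trans (le_trans (le_max_left _ _) (le_max_right _ _)) hq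
  have hqc : q2 ≤ q := le_trans (le_trans (le_max_right _ _) (le_max_right _ _)) hq
  have hq' : (0 : ℝ) < q := by exact_mod_cast hqa
  have h1 := Step_sum hτ (K := K) hqa hh hm hS0 hε0.le hε1
  refine h1.trans (mul_le_mul_of_nonneg_right ?_ (l1_nn _ _))
  have h2 : (2 * S + 1) * (20 * ε + 1 / q) ≤ 2 * δ := by
    have h3 : (2 * S + 1) / δ ≤ q := hq2.trans (by exact_mod_cast hqc)
    rw [div_le_iff₀ hδ0] at h3
    have h4 : (2 * S + 1) * (1 / q) ≤ δ := by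
      rw [mul_one_div, div_le_iff₀ hq']
      linarith
    linarith
  have h5 : Real.sqrt ((2 * S + 1) * (20 * ε + 1 / q)) ≤ κ / 2 := by
    refine Real.sqrt_le_iff.2 ⟨by positivity, h2.trans ?_⟩
    rw [hδ]
    nlinarith [sq_nonneg κ]
  have h6 := hbad K (10 * q) S (by linarith)
  have h7 : C * ρ ^ (10 * q) ≤ κ / 4 := hq1 _ (by omega)
  linarith

end Pool.Agent.helper4.PDM
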