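import Pool.Agent.helper4.PDM.StepR

/-!
# PDM-StepA: average over the root

`avg_split k m`, `stepR`, `avg_sqrt_le`, `avg_ww`, `pr G ≤ 1`.
-/

namespace Pool.Agent.helper4.PDM

open Finset Pool.Agent.helper14.EX1

variable {E : Type} [NormedAddCommGroup E] [NormedSpace ℝ E] {τ : ℕ → E →ₗ[ℝ] E}

theorem stepA (hτ : Con τ) {G : Finset (List ℕ)} {K k m : ℕ} (hG : G ⊆ lw K k) {S : ℝ} (hS : 0 ≤ S)
    (hs : ∀ v ∈ G, |(Gw v : ℝ)| ≤ S * 2 ^ v.sum) {I : Finset ℕ} (hI : ∀ v ∈ G, v.sum ∈ I)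
    (hA : ∀ A ∈ I, (3 : ℝ) ^ (k + m) ≤ 2 ^ A) {J : Finset ℕ} (hJ : ∀ j ∈ J, j < m) {h : ℕ → ℤ → E}
    (hh : ∀ j ∈ J, PerV (j + 1) (h j)) (hm : ∀ j ∈ J, MeanZ j (h j)) {b : ℝ} (hb : 0 ≤ b)
    (hl : ∀ j ∈ J, l1 (j + 1) (h j) ≤ b) :
    ∑ j ∈ J, l1 (k + m) (LG τ G (h j)) ≤ b * Real.sqrt (J.card * (2 * S + 1) * I.card) := by
  have hG' : ∀ v ∈ G, v.length = k ∧ ∀ b ∈ v, 1 ≤ b := fun v hv => by
    have h1 := mem_lw.1 (hG hv)
    exact ⟨h1.1, fun b hb => (h1.2 b hb).1⟩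
  have hc : 0 ≤ (J.card : ℝ) * (2 * S + 1) * I.card := by positivity
  have hM : ∀ r : ℤ, 0 ≤ ∑ v ∈ G, if Ala r v then ww v else 0 := fun r =>
    Finset.sum_nonneg fun v _ => by
      split_ifs
      · exact (ww_pos v).le
      · exact le_rfl
  calc ∑ j ∈ J, l1 (k + m) (LG τ G (h j))
      = ∑ j ∈ J, avg k (fun r => l1 m (fun z => LG τ G (h j) (r + 3 ^ k * z))) :=
        Finset.sum_congr rfl fun j _ => avg_split k m _
    _ = avg k (fun r => ∑ j ∈ J, l1 m (fun z => LG τ G (h j) (r + 3 ^ k * z))) :=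
        (avg_sum k J _).symm
    _ ≤ avg k (fun r => b * Real.sqrt (J.card * (2 * S + 1) * I.card *
          ∑ v ∈ G, if Ala r v then ww v else 0)) :=
        avg_mono fun r => stepR hτ hG' hS hs hI hA hJ hh hm hb hl r
    _ = b * avg k (fun r => Real.sqrt (J.card * (2 * S + 1) * I.card *
          ∑ v ∈ G, if Ala r v then ww v else 0)) := avg_smul k b _
    _ ≤ b * Real.sqrt (avg k (fun r => J.card * (2 * S + 1) * I.card *
          ∑ v ∈ G, if Ala r v then ww v else 0)) :=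
        mul_le_mul_of_nonneg_left (avg_sqrt_le k fun r => mul_nonneg hc (hM r)) hb
    _ ≤ b * Real.sqrt (J.card * (2 * S + 1) * I.card) := by
        refine mul_le_mul_of_nonneg_left (Real.sqrt_le_sqrt ?_) hb
        rw [avg_smul, avg_ww hG']
        exact mul_le_of_le_one_right hc ((pr_mono hG).trans (pr_lw_le K k))

end Pool.Agent.helper4.PDM
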