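import Pool.Agent.helper4.PDM.Yng
import Pool.Agent.helper4.PDM.Grp
import Pool.Agent.helper4.PDM.Op

/-!
# PDM-StepR: one root

Fix `r`.  For `A ∈ I` let `f_A e = ww * 3 ^ m * card (Cls G r A m e)` with `ww = 3 ^ k / 2 ^ A`: period `3 ^ m` in `e`,
`0 ≤ f_A ≤ 2 S + 1` (`cls_le`), `avg m f_A = M_A`, the mass of the group (`∑_{e < 3 ^ m} card (Cls G r A m e) =` number of words of
the group).  `nd (r + 3 ^ k z) v = 2 ^ A z + nd r v` (`nd_shift`, `q = 0`), `Ala (r + 3 ^ k z) v ↔ Ala r v` (`ala_shift`), so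
`LG τ G h (r + 3 ^ k z) = ∑_{A ∈ I} τ_A (cvE m f_A h (2 ^ A z))` for `h` of period `3 ^ m`.  Hence, with `avg_aff`, Cauchy-Schwarz:
`avg m ‖LG τ G (h j) (r + 3 ^ k z)‖ ≤ ∑_A sqrt (l2 m (cvE m f_A (h j)))`, the sum over `j ∈ J` is at most
`∑_A sqrt (card J * (2 S + 1) * M_A * b²) ≤ b sqrt (card J (2 S + 1)) sqrt (card I * ∑_A M_A)` (`yop`).
-/

namespace Pool.Agent.helper4.PDM

open Finset Pool.Agent.helper14.EX1

variable {E : Type} [NormedAddCommGroup E] [NormedSpace ℝ E] {τ : ℕ → E →ₗ[ℝ] E}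

/-- The residue of the end. -/
theorem StepR_res (m : ℕ) (y : ℤ) {e : ℕ} (he : e < 3 ^ m) :
    (y % 3 ^ m).toNat = e ↔ (3 : ℤ) ^ m ∣ y - e := by
  have h3 : (0 : ℤ) < 3 ^ m := by positivity
  have h1 := Int.emod_nonneg y h3.ne'
  have h2 : (e : ℤ) < 3 ^ m := by exact_mod_cast he
  constructor
  · intro h
    have h4 : y % 3 ^ m = (e : ℤ) := by omega
    exact Int.dvd_self_sub_of_emod_eq h4
  · intro h
    have h4 : y % 3 ^ m = (e : ℤ) % 3 ^ m := ((Int.modEq_iff_dvd).2 h).symm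
    rw [Int.emod_eq_of_lt (by omega) h2] at h4
    omega

open Classical in
theorem StepR_fib {G : Finset (List ℕ)} {m : ℕ} {I : Finset ℕ} (hI : ∀ v ∈ G, v.sum ∈ I) (r : ℤ)
    {M : Type} [AddCommMonoid M] (F : List ℕ → M) :
    ∑ v ∈ G.filter (fun v => Ala r v), F v =
      ∑ A ∈ I, ∑ e ∈ range (3 ^ m), ∑ v ∈ Cls G r A m (e : ℤ), F v := by
  have h3 : (0 : ℤ) < 3 ^ m := by positivity
  rw [← Finset.sum_product' I (range (3 ^ m)) (fun A e => ∑ v ∈ Cls G r A m (e : ℤ), F v)]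
  rw [← Finset.sum_fiberwise_of_maps_to (s := G.filter (fun v => Ala r v)) (t := I ×ˢ range (3 ^ m))
    (g := fun v => (v.sum, (nd r v % 3 ^ m).toNat)) (f := F)]
  · refine Finset.sum_congr rfl fun p hp => ?_
    obtain ⟨A, e⟩ := p
    rw [mem_product, mem_range] at hp
    refine Finset.sum_congr ?_ fun _ _ => rfl
    ext v
    unfold Cls
    rw [mem_filter, mem_filter, mem_filter, Prod.mk.injEq, StepR_res m (nd r v) hp.2]
    tauto
  · intro v hv
    rw [mem_filter] at hv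
    rw [mem_product, mem_range]
    refine ⟨hI v hv.1, ?_⟩
    have h1 := Int.emod_nonneg (nd r v) h3.ne'
    have h2 := Int.emod_lt_of_pos (nd r v) h3
    have h4 : (((nd r v % 3 ^ m).toNat : ℕ) : ℤ) < ((3 ^ m : ℕ) : ℤ) := by
      rw [Int.toNat_of_nonneg h1]
      push_cast
      exact h2
    exact_mod_cast h4

/-- The formula for the masses above one root. -/
theorem LG_root {G : Finset (List ℕ)} {k m : ℕ} (hG : ∀ v ∈ G, v.length = k ∧ ∀ b ∈ v, 1 ≤ b)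
    {I : Finset ℕ} (hI : ∀ v ∈ G, v.sum ∈ I) (r z : ℤ) {h : ℤ → E} (hh : PerV m h) :
    LG τ G h (r + 3 ^ k * z) = ∑ A ∈ I, τ A (cvE m
      (fun e => 3 ^ k / 2 ^ A * 3 ^ m * ((Cls G r A m e).card : ℝ)) h (2 ^ A * z)) := by
  classical
  have h1 : LG τ G h (r + 3 ^ k * z) =
      ∑ v ∈ G.filter (fun v => Ala r v), ww v • τ v.sum (h (nd r v + 2 ^ v.sum * z)) := by
    unfold LG
    rw [Finset.sum_filter]
    refine Finset.sum_congr rfl fun v hv => ?_
    obtain ⟨hk, -⟩ := hG v hv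
    have e1 : Ala (r + 3 ^ k * z) v ↔ Ala r v := by
      rw [← hk]
      exact ala_shift v r z
    have e2 : nd (r + 3 ^ k * z) v = nd r v + 2 ^ v.sum * z := by
      have := nd_shift v 0 r z
      rw [zero_add, hk, pow_zero, one_mul] at this
      exact this
    rw [e2]
    by_cases ha : Ala r v
    · rw [if_pos (e1.2 ha), if_pos ha]
    · rw [if_neg (fun h => ha (e1.1 h)), if_neg ha]
  rw [h1, StepR_fib (m := m) hI r]
  refine Finset.sum_congr rfl fun A hA => ?_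
  unfold cvE
  rw [map_smul, map_sum, Finset.smul_sum]
  refine Finset.sum_congr rfl fun e he => ?_
  have h2 : ∀ v ∈ Cls G r A m (e : ℤ), ww v • τ v.sum (h (nd r v + 2 ^ v.sum * z)) =
      ((3 : ℝ) ^ k / 2 ^ A) • τ A (h (2 ^ A * z + e)) := by
    intro v hv
    unfold Cls at hv
    rw [mem_filter] at hv
    obtain ⟨hvG, -, hvA, hvd⟩ := hv
    obtain ⟨hk, -⟩ := hG v hvG
    unfold ww
    rw [hk, hvA]
    congr 2
    apply perV_dvd hh
    have : nd r v + 2 ^ A * z - (2 ^ A * z + e) = nd r v - e := by ring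
    rw [this]
    exact hvd
  rw [Finset.sum_congr rfl h2, Finset.sum_const, map_smul, smul_smul, ← Nat.cast_smul_eq_nsmul ℝ, smul_smul]
  congr 1
  have h3 : (3 : ℝ) ^ m ≠ 0 := by positivity
  field_simp

open Classical in
theorem StepR_mass {G : Finset (List ℕ)} {k m : ℕ} (hG : ∀ v ∈ G, v.length = k ∧ ∀ b ∈ v, 1 ≤ b)
    {I : Finset ℕ} (hI : ∀ v ∈ G, v.sum ∈ I) (r : ℤ) :
    ∑ A ∈ I, avg m (fun e => 3 ^ k / 2 ^ A * 3 ^ m * ((Cls G r A m e).card : ℝ)) =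
      ∑ v ∈ G, if Ala r v then ww v else 0 := by
  have h1 := LG_root (τ := fun _ => (LinearMap.id : ℝ →ₗ[ℝ] ℝ)) hG hI r 0 (m := m)
    (h := fun _ => (1 : ℝ)) (fun _ => rfl)
  unfold LG at h1
  simp only [mul_zero, add_zero, LinearMap.id_coe, id_eq, smul_eq_mul, mul_one] at h1
  rw [h1]
  refine Finset.sum_congr rfl fun A _ => ?_
  unfold avg cvE
  simp only [smul_eq_mul, mul_one]
  rw [div_eq_mul_inv, mul_comm, one_div]

theorem StepR_per (G : Finset (List ℕ)) (r : ℤ) (A m k : ℕ) :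
    Per m (fun e => (3 : ℝ) ^ k / 2 ^ A * 3 ^ m * ((Cls G r A m e).card : ℝ)) := by
  intro x
  have : Cls G r A m (x + 3 ^ m) = Cls G r A m x := by
    unfold Cls
    refine Finset.filter_congr fun v _ => ?_
    have : nd r v - (x + 3 ^ m) = (nd r v - x) - 3 ^ m := by ring
    rw [this, dvd_sub_self_right]
  simp only [this]

theorem stepR (hτ : Con τ) {G : Finset (List ℕ)} {k m : ℕ}
    (hG : ∀ v ∈ G, v.length = k ∧ ∀ b ∈ v, 1 ≤ b) {S : ℝ} (hS : 0 ≤ S)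
    (hs : ∀ v ∈ G, |(Gw v : ℝ)| ≤ S * 2 ^ v.sum) {I : Finset ℕ} (hI : ∀ v ∈ G, v.sum ∈ I)
    (hA : ∀ A ∈ I, (3 : ℝ) ^ (k + m) ≤ 2 ^ A) {J : Finset ℕ} (hJ : ∀ j ∈ J, j < m) {h : ℕ → ℤ → E}
    (hh : ∀ j ∈ J, PerV (j + 1) (h j)) (hm : ∀ j ∈ J, MeanZ j (h j)) {b : ℝ} (hb : 0 ≤ b)
    (hl : ∀ j ∈ J, l1 (j + 1) (h j) ≤ b) (r : ℤ) :
    ∑ j ∈ J, l1 m (fun z => LG τ G (h j) (r + 3 ^ k * z)) ≤
      b * Real.sqrt (J.card * (2 * S + 1) * I.card *
        ∑ v ∈ G, if Ala r v then ww v else 0) := by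
  classical
  set f : ℕ → ℤ → ℝ := fun A e => 3 ^ k / 2 ^ A * 3 ^ m * ((Cls G r A m e).card : ℝ) with hf
  have hfper : ∀ A, Per m (f A) := fun A => StepR_per G r A m k
  have hf0 : ∀ A x, 0 ≤ f A x := fun A x => by
    simp only [hf]
    positivity
  have hf1 : ∀ A ∈ I, ∀ x, f A x ≤ 2 * S + 1 := by
    intro A hAI x
    have h1 := cls_le hG hS hs r (hA A hAI) x
    simp only [hf]
    calc (3 : ℝ) ^ k / 2 ^ A * 3 ^ m * ((Cls G r A m x).card : ℝ)
        ≤ 3 ^ k / 2 ^ A * 3 ^ m * ((2 * S + 1) * (2 ^ A / 3 ^ (k + m))) :=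
          mul_le_mul_of_nonneg_left h1 (by positivity)
      _ = 2 * S + 1 := by
          rw [pow_add]
          field_simp
  have hM0 : ∀ A, 0 ≤ avg m (f A) := fun A => avg_nn (hf0 A)
  -- one digit
  have h1 : ∀ j ∈ J, l1 m (fun z => LG τ G (h j) (r + 3 ^ k * z)) ≤
      ∑ A ∈ I, Real.sqrt (l2 m (cvE m (f A) (h j))) := by
    intro j hj
    have hper : PerV m (h j) := perV_mono (hJ j hj) (hh j hj)
    have e1 : (fun z => LG τ G (h j) (r + 3 ^ k * z)) =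
        fun z => ∑ A ∈ I, τ A (cvE m (f A) (h j) (2 ^ A * z)) := by
      funext z
      exact LG_root hG hI r z hper
    rw [e1]
    refine (l1_sum_le m I fun A z => τ A (cvE m (f A) (h j) (2 ^ A * z))).trans ?_
    refine Finset.sum_le_sum fun A _ => ?_
    have e2 : l1 m (fun z => τ A (cvE m (f A) (h j) (2 ^ A * z))) ≤
        l1 m (fun z => cvE m (f A) (h j) (2 ^ A * z)) := l1_mono fun x => hτ.norm A _
    have e3 : l1 m (fun z => cvE m (f A) (h j) (2 ^ A * z)) = l1 m (cvE m (f A) (h j)) := by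
      have := avg_aff (perV_norm (cvE_per (m := m) (f A) hper)) A 0
      simp only [add_zero] at this
      exact this
    rw [e3] at e2
    exact e2.trans (Real.le_sqrt_of_sq_le (l1_sq_le m _))
  refine (Finset.sum_le_sum h1).trans ?_
  rw [Finset.sum_comm]
  -- sum over the digits
  have h2 : ∀ A ∈ I, ∑ j ∈ J, Real.sqrt (l2 m (cvE m (f A) (h j))) ≤
      b * Real.sqrt (J.card * (2 * S + 1) * avg m (f A)) := by
    intro A hAI
    have e1 := yop (hfper A) hb (hf0 A) (hf1 A hAI) J hJ hh hm hl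
    have e2 : (∑ j ∈ J, Real.sqrt (l2 m (cvE m (f A) (h j)))) ^ 2 ≤
        J.card * ∑ j ∈ J, Real.sqrt (l2 m (cvE m (f A) (h j))) ^ 2 := sq_sum_le_card_mul_sum_sq
    have e3 : ∑ j ∈ J, Real.sqrt (l2 m (cvE m (f A) (h j))) ^ 2 = ∑ j ∈ J, l2 m (cvE m (f A) (h j)) :=
      Finset.sum_congr rfl fun j _ => Real.sq_sqrt (l2_nn m _)
    rw [e3] at e2
    have e4 : (∑ j ∈ J, Real.sqrt (l2 m (cvE m (f A) (h j)))) ^ 2 ≤
        b ^ 2 * (J.card * (2 * S + 1) * avg m (f A)) := by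
      refine e2.trans ?_
      have := mul_le_mul_of_nonneg_left e1 (Nat.cast_nonneg (α := ℝ) J.card)
      linarith
    have e5 := Real.le_sqrt_of_sq_le e4
    rwa [Real.sqrt_mul (by positivity), Real.sqrt_sq hb] at e5
  refine (Finset.sum_le_sum h2).trans ?_
  rw [← Finset.mul_sum]
  refine mul_le_mul_of_nonneg_left ?_ hb
  apply Real.le_sqrt_of_sq_le
  have e2 : (∑ A ∈ I, Real.sqrt (J.card * (2 * S + 1) * avg m (f A))) ^ 2 ≤
      I.card * ∑ A ∈ I, Real.sqrt (J.card * (2 * S + 1) * avg m (f A)) ^ 2 := sq_sum_le_card_mul_sum_sq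
  have e3 : ∑ A ∈ I, Real.sqrt (J.card * (2 * S + 1) * avg m (f A)) ^ 2 =
      J.card * (2 * S + 1) * ∑ v ∈ G, if Ala r v then ww v else 0 := by
    rw [← StepR_mass (m := m) hG hI r, Finset.mul_sum]
    refine Finset.sum_congr rfl fun A _ => ?_
    have := hM0 A
    rw [Real.sq_sqrt (by positivity)]
  rw [e3] at e2
  refine e2.trans (le_of_eq ?_)
  ring

end Pool.Agent.helper4.PDM
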