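import Pool.Agent.helper4.PDM.Defs
import Pool.Agent.helper14.EX1.Bas

/-!
# PDM-Vec: functions with values in a normed space, periodic modulo `3 ^ q`

All proofs are direct (see `Bas` of EX1: `per_mul`, `avg_up`, `avg_mono`, `avg_add`, `sum_shift`, `sum_affine`).
-/

namespace Pool.Agent.helper4.PDM

open Finset Pool.Agent.helper14.EX1

variable {E : Type} [NormedAddCommGroup E] [NormedSpace ℝ E]

theorem perV_mul {q : ℕ} {h : ℤ → E} (hh : PerV q h) (x y : ℤ) : h (x + 3 ^ q * y) = h x := by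
  have h1 : Function.Periodic h ((3 : ℤ) ^ q) := hh
  have := h1.int_mul y x
  rw [mul_comm]
  exact this

theorem perV_dvd {q : ℕ} {h : ℤ → E} (hh : PerV q h) {x y : ℤ} (hd : (3 : ℤ) ^ q ∣ x - y) :
    h x = h y := by
  obtain ⟨k, hk⟩ := hd
  have hx : x = y + 3 ^ q * k := by linarith
  rw [hx]
  exact perV_mul hh y k

theorem perV_mono {q q' : ℕ} (hq : q ≤ q') {h : ℤ → E} (hh : PerV q h) : PerV q' h := by
  intro x
  apply perV_dvd hh
  have : x + 3 ^ q' - x = (3 : ℤ) ^ q' := by ring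
  rw [this]
  exact pow_dvd_pow 3 hq

theorem perV_norm {q : ℕ} {h : ℤ → E} (hh : PerV q h) : Per q (fun x => ‖h x‖) := by
  intro x
  show ‖h (x + 3 ^ q)‖ = ‖h x‖
  rw [hh x]

/-- Composition with `x ↦ u x + a`. -/
theorem perV_aff {q : ℕ} {h : ℤ → E} (hh : PerV q h) (u a : ℤ) : PerV q (fun x => h (u * x + a)) := by
  intro x
  show h (u * (x + 3 ^ q) + a) = h (u * x + a)
  apply perV_dvd hh
  have : u * (x + 3 ^ q) + a - (u * x + a) = 3 ^ q * u := by ring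
  rw [this]
  exact dvd_mul_right _ _

theorem l1_nn (q : ℕ) (h : ℤ → E) : 0 ≤ l1 q h := avg_nn (fun _ => norm_nonneg _)

theorem l2_nn (q : ℕ) (h : ℤ → E) : 0 ≤ l2 q h := avg_nn (fun _ => sq_nonneg _)

theorem l1_add_le (q : ℕ) (g h : ℤ → E) : l1 q (fun x => g x + h x) ≤ l1 q g + l1 q h := by
  unfold l1
  rw [← avg_add]
  exact avg_mono (fun x => norm_add_le _ _)

theorem l1_sub_le (q : ℕ) (g h : ℤ → E) : l1 q (fun x => g x - h x) ≤ l1 q g + l1 q h := by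
  unfold l1
  rw [← avg_add]
  exact avg_mono (fun x => norm_sub_le _ _)

theorem Vec_avg_sum {ι : Type} (q : ℕ) (s : Finset ι) (φ : ι → ℤ → ℝ) :
    avg q (fun x => ∑ i ∈ s, φ i x) = ∑ i ∈ s, avg q (φ i) := by
  unfold avg
  rw [Finset.sum_comm, Finset.sum_div]

theorem l1_sum_le {ι : Type} (q : ℕ) (s : Finset ι) (h : ι → ℤ → E) :
    l1 q (fun x => ∑ i ∈ s, h i x) ≤ ∑ i ∈ s, l1 q (h i) := by
  unfold l1
  rw [← Vec_avg_sum]
  exact avg_mono (fun x => norm_sum_le _ _)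

theorem l1_up {q q' : ℕ} (hq : q ≤ q') {h : ℤ → E} (hh : PerV q h) : l1 q' h = l1 q h :=
  avg_up hq (perV_norm hh)

theorem l1_const (q : ℕ) (e : E) : l1 q (fun _ => e) = ‖e‖ := avg_const q ‖e‖

theorem l1_mono {F : Type} [NormedAddCommGroup F] [NormedSpace ℝ F] {q : ℕ} {g : ℤ → E} {h : ℤ → F}
    (hgh : ∀ x, ‖g x‖ ≤ ‖h x‖) : l1 q g ≤ l1 q h := avg_mono hgh

/-- Cauchy-Schwarz. -/
theorem Vec_avg_sq (q : ℕ) (φ : ℤ → ℝ) : avg q φ ^ 2 ≤ avg q (fun x => φ x ^ 2) := by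
  unfold avg
  have h1 : (∑ x ∈ range (3 ^ q), φ (x : ℤ)) ^ 2 ≤
      ((range (3 ^ q)).card : ℝ) * ∑ x ∈ range (3 ^ q), φ (x : ℤ) ^ 2 := sq_sum_le_card_mul_sum_sq
  rw [card_range] at h1
  push_cast at h1
  have h3 : (0 : ℝ) < (3 : ℝ) ^ q := by positivity
  rw [div_pow, div_le_div_iff₀ (by positivity) h3]
  calc (∑ x ∈ range (3 ^ q), φ (x : ℤ)) ^ 2 * 3 ^ q
      ≤ ((3 : ℝ) ^ q * ∑ x ∈ range (3 ^ q), φ (x : ℤ) ^ 2) * 3 ^ q :=
        mul_le_mul_of_nonneg_right h1 h3.le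
    _ = (∑ x ∈ range (3 ^ q), φ (x : ℤ) ^ 2) * ((3 : ℝ) ^ q) ^ 2 := by ring

theorem l1_sq_le (q : ℕ) (h : ℤ → E) : l1 q h ^ 2 ≤ l2 q h := Vec_avg_sq q (fun x => ‖h x‖)

theorem Vec_pow (A : ℕ) : ¬ (3 : ℤ) ∣ 2 ^ A := by
  intro h
  have := Int.prime_three.dvd_of_dvd_pow h
  norm_num at this

theorem avg_aff {q : ℕ} {φ : ℤ → ℝ} (hφ : Per q φ) (A : ℕ) (a : ℤ) :
    avg q (fun z => φ (2 ^ A * z + a)) = avg q φ := by
  unfold avg
  rw [sum_affine hφ (Vec_pow A) a]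

/-- Digits: first the low digits. -/
theorem avg_split (k m : ℕ) (φ : ℤ → ℝ) :
    avg (k + m) φ = avg k (fun r => avg m (fun z => φ (r + 3 ^ k * z))) := by
  unfold avg
  rw [sum_split, ← Finset.sum_div, div_div, pow_add, mul_comm ((3 : ℝ) ^ m)]

theorem avg_sum {ι : Type} (q : ℕ) (s : Finset ι) (φ : ι → ℤ → ℝ) :
    avg q (fun x => ∑ i ∈ s, φ i x) = ∑ i ∈ s, avg q (φ i) := Vec_avg_sum q s φ

/-- Jensen for the square root. -/
theorem avg_sqrt_le (q : ℕ) {φ : ℤ → ℝ} (h : ∀ x, 0 ≤ φ x) :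
    avg q (fun x => Real.sqrt (φ x)) ≤ Real.sqrt (avg q φ) := by
  apply Real.le_sqrt_of_sq_le
  refine (Vec_avg_sq q _).trans (le_of_eq ?_)
  have : (fun x => Real.sqrt (φ x) ^ 2) = φ := funext fun x => Real.sq_sqrt (h x)
  rw [this]

end Pool.Agent.helper4.PDM
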