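import Pool.Agent.helper4.PDM.Vec

/-!
# PDM-Yng: Young's inequality with the martingale differences of a density (values in a normed space)

helper94 has the complete scalar proof (`/team-store/PD_Yng_h94.lean`); here the functions `D` have values in `E`.

`cE_per`, `cE_digit`: `sum_split`.  `sum_dE_le`: `cE j m f` has period `3 ^ j`, `dE m f j` has mean zero over the digit `j`, so
`avg (cE (j+1))² = avg (cE j)² + avg (dE j)²`; telescope, `cE m m f = f`.  `cvE_red`: the sum over `e < 3 ^ m` splits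
(`sum_split (j+1) (m-j-1)`) and gives `cvE m f h = cvE (j+1) (cE (j+1) m f) h`; and `cvE (j+1) (cE j m f) h = 0` because `cE j m f`
has period `3 ^ j` and `h` has mean zero over the digit `j` (`sum_split j 1`).  `young`: `‖cvE q f h z‖ ≤ (1/3^q) ∑_e |f e| ‖h (z+e)‖`,
Cauchy-Schwarz with the weights `‖h (z + e)‖`, `∑_e ‖h (z + e)‖ = 3 ^ q l1 q h` (`sum_shift`), sum over `z`.
`yop`: `cvE_red`, `young` with `q = j + 1`, `l2 m = l2 (j + 1)` (period), `sum_dE_le`, `avg f² ≤ Kc avg f`.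
-/

namespace Pool.Agent.helper4.PDM

open Finset Pool.Agent.helper14.EX1

variable {E : Type} [NormedAddCommGroup E] [NormedSpace ℝ E]

/-- Digits, values in a vector space. -/
theorem Yng_split {F : Type} [AddCommMonoid F] (q r : ℕ) (φ : ℤ → F) :
    ∑ x ∈ range (3 ^ (q + r)), φ (x : ℤ) =
      ∑ B ∈ range (3 ^ q), ∑ W ∈ range (3 ^ r), φ ((B : ℤ) + 3 ^ q * (W : ℤ)) := by
  have hp : 0 < 3 ^ q := by positivity
  rw [← Finset.sum_product' (f := fun B W : ℕ => φ ((B : ℤ) + 3 ^ q * (W : ℤ)))]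
  refine Finset.sum_nbij' (fun x => (x % 3 ^ q, x / 3 ^ q)) (fun z => z.1 + 3 ^ q * z.2)
    ?_ ?_ ?_ ?_ ?_
  · intro x hx
    rw [mem_range, pow_add] at hx
    simp only [mem_product, mem_range]
    exact ⟨Nat.mod_lt _ hp, Nat.div_lt_of_lt_mul hx⟩
  · intro z hz
    simp only [mem_product, mem_range] at hz
    rw [mem_range, pow_add]
    obtain ⟨h1, h2⟩ := hz
    calc z.1 + 3 ^ q * z.2 < 3 ^ q + 3 ^ q * z.2 := by omega
      _ = 3 ^ q * (z.2 + 1) := by ring
      _ ≤ 3 ^ q * 3 ^ r := Nat.mul_le_mul_left _ h2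
  · intro x _
    exact Nat.mod_add_div x (3 ^ q)
  · intro z hz
    simp only [mem_product, mem_range] at hz
    obtain ⟨h1, h2⟩ := hz
    apply Prod.ext
    · show (z.1 + 3 ^ q * z.2) % 3 ^ q = z.1
      rw [Nat.add_mul_mod_self_left, Nat.mod_eq_of_lt h1]
    · show (z.1 + 3 ^ q * z.2) / 3 ^ q = z.2
      rw [Nat.add_mul_div_left _ _ hp, Nat.div_eq_of_lt h1, zero_add]
  · intro x _
    show φ (x : ℤ) = φ (((x % 3 ^ q : ℕ) : ℤ) + 3 ^ q * ((x / 3 ^ q : ℕ) : ℤ))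
    congr 1
    have := Nat.mod_add_div x (3 ^ q)
    exact_mod_cast this.symm

theorem cE_per {q m : ℕ} (hq : q ≤ m) {f : ℤ → ℝ} (hf : Per m f) : Per q (cE q m f) := by
  intro x
  unfold cE
  congr 1
  have hg : Per (m - q) (fun W => f (x + 3 ^ q * W)) := by
    intro W
    apply per_dvd hf
    have e : x + 3 ^ q * (W + 3 ^ (m - q)) - (x + 3 ^ q * W) = (3 : ℤ) ^ q * 3 ^ (m - q) := by ring
    rw [e, ← pow_add, Nat.add_sub_cancel' hq]
  have h1 := sum_shift hg 1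
  rw [← h1]
  refine Finset.sum_congr rfl fun W _ => ?_
  congr 1
  ring

theorem cE_self (m : ℕ) (f : ℤ → ℝ) : cE m m f = f := by
  funext x
  unfold cE
  simp

/-- Averaging over the digit `j`. -/
theorem cE_digit {j m : ℕ} (hj : j < m) (f : ℤ → ℝ) (x : ℤ) :
    ∑ d ∈ range 3, cE (j + 1) m f (x + 3 ^ j * (d : ℤ)) = 3 * cE j m f x := by
  obtain ⟨r, rfl⟩ : ∃ r, m = j + 1 + r := ⟨m - (j + 1), by omega⟩
  have e1 : j + 1 + r - (j + 1) = r := by omega
  have e2 : j + 1 + r - j = 1 + r := by omega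
  unfold cE
  have e4 : (3 : ℝ) ^ (1 + r) = 3 * 3 ^ r := by rw [pow_add, pow_one]
  have e5 : (3 : ℕ) ^ 1 = 3 := pow_one 3
  rw [e1, e2, sum_split 1 r (fun W => f (x + 3 ^ j * W)), ← Finset.sum_div, e4, e5]
  have e3 : ∀ d ∈ range 3, ∑ W ∈ range (3 ^ r), f (x + 3 ^ j * (d : ℤ) + 3 ^ (j + 1) * (W : ℤ)) =
      ∑ W ∈ range (3 ^ r), f (x + 3 ^ j * ((d : ℤ) + 3 ^ 1 * (W : ℤ))) := by
    intro d _
    refine Finset.sum_congr rfl fun W _ => ?_
    congr 1
    ring
  rw [Finset.sum_congr rfl e3]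
  have h3 : (3 : ℝ) ^ r ≠ 0 := by positivity
  field_simp

theorem dE_per {j m : ℕ} (hj : j < m) {f : ℤ → ℝ} (hf : Per m f) : Per (j + 1) (dE m f j) := by
  have h1 : Per (j + 1) (cE (j + 1) m f) := cE_per hj hf
  have h2 : Per (j + 1) (cE j m f) := per_mono (Nat.le_succ j) (cE_per hj.le hf)
  intro x
  unfold dE
  rw [h1 x, h2 x]

/-- The energies. -/
theorem Yng_energy {j m : ℕ} (hj : j < m) {f : ℤ → ℝ} (hf : Per m f) :
    avg (j + 1) (fun x => dE m f j x ^ 2) =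
      avg (j + 1) (fun x => cE (j + 1) m f x ^ 2) - avg j (fun x => cE j m f x ^ 2) := by
  have hp0 : Per j (cE j m f) := cE_per hj.le hf
  have h1 : avg (j + 1) (fun x => cE (j + 1) m f x * cE j m f x) = avg j (fun x => cE j m f x ^ 2) := by
    unfold avg
    rw [sum_split j 1 (fun x => cE (j + 1) m f x * cE j m f x)]
    have e : ∀ B ∈ range (3 ^ j), ∑ W ∈ range (3 ^ 1),
        cE (j + 1) m f ((B : ℤ) + 3 ^ j * (W : ℤ)) * cE j m f ((B : ℤ) + 3 ^ j * (W : ℤ)) =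
        3 * cE j m f (B : ℤ) ^ 2 := by
      intro B _
      have e1 : ∀ W ∈ range (3 ^ 1),
          cE (j + 1) m f ((B : ℤ) + 3 ^ j * (W : ℤ)) * cE j m f ((B : ℤ) + 3 ^ j * (W : ℤ)) =
          cE (j + 1) m f ((B : ℤ) + 3 ^ j * (W : ℤ)) * cE j m f (B : ℤ) := by
        intro W _
        rw [per_mul hp0]
      rw [Finset.sum_congr rfl e1, ← Finset.sum_mul, pow_one, cE_digit hj]
      ring
    rw [Finset.sum_congr rfl e, ← Finset.mul_sum, pow_succ (3 : ℝ) j]
    have h4 : (3 : ℝ) ^ j ≠ 0 := by positivity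
    field_simp
  have h2 : avg (j + 1) (fun x => cE j m f x ^ 2) = avg j (fun x => cE j m f x ^ 2) :=
    avg_up (Nat.le_succ j) (per_comp hp0 (fun t => t ^ 2))
  have e2 : (fun x => dE m f j x ^ 2) =
      fun x => cE (j + 1) m f x ^ 2 + ((-2) * (cE (j + 1) m f x * cE j m f x) + cE j m f x ^ 2) := by
    funext x
    unfold dE
    ring
  rw [e2, avg_add, avg_add, avg_smul, h1, h2]
  ring

/-- Orthogonality. -/
theorem sum_dE_le {m : ℕ} {f : ℤ → ℝ} (hf : Per m f) :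
    ∑ j ∈ range m, avg (j + 1) (fun x => dE m f j x ^ 2) ≤ avg m (fun x => f x ^ 2) := by
  have h1 : ∑ j ∈ range m, avg (j + 1) (fun x => dE m f j x ^ 2) =
      ∑ j ∈ range m, (avg (j + 1) (fun x => cE (j + 1) m f x ^ 2) -
        avg j (fun x => cE j m f x ^ 2)) :=
    Finset.sum_congr rfl fun j hj => Yng_energy (mem_range.1 hj) hf
  rw [h1, Finset.sum_range_sub (fun j => avg j (fun x => cE j m f x ^ 2)), cE_self]
  have h2 : 0 ≤ avg 0 (fun x => cE 0 m f x ^ 2) := avg_nn fun x => sq_nonneg _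
  linarith

theorem Yng_shift {q : ℕ} {g : ℤ → ℝ} (hg : Per q g) (a : ℤ) :
    avg q (fun x => g (x + a)) = avg q g := by
  unfold avg
  rw [sum_shift hg]

theorem Yng_comm (p q : ℕ) (F : ℤ → ℤ → ℝ) :
    avg p (fun x => avg q (fun y => F x y)) = avg q (fun y => avg p (fun x => F x y)) := by
  unfold avg
  simp only [Finset.sum_div]
  rw [Finset.sum_comm]
  refine Finset.sum_congr rfl fun x _ => Finset.sum_congr rfl fun y _ => ?_
  ring

/-- Weighted Cauchy-Schwarz for averages. -/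
theorem Yng_cs (j : ℕ) (h D : ℤ → ℝ) (hD : ∀ e, 0 ≤ D e) :
    (avg j (fun e => |h e| * D e)) ^ 2 ≤ avg j D * avg j (fun e => h e ^ 2 * D e) := by
  unfold avg
  rw [div_pow, div_mul_div_comm, ← sq]
  apply div_le_div_of_nonneg_right _ (by positivity)
  have h1 := Finset.sum_mul_sq_le_sq_mul_sq (range (3 ^ j))
    (fun e : ℕ => Real.sqrt (D e)) (fun e : ℕ => |h e| * Real.sqrt (D e))
  have e1 : ∀ e ∈ range (3 ^ j), Real.sqrt (D (e : ℤ)) * (|h (e : ℤ)| * Real.sqrt (D (e : ℤ))) =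
      |h (e : ℤ)| * D (e : ℤ) := by
    intro e _
    calc _ = |h (e : ℤ)| * (Real.sqrt (D (e : ℤ)) * Real.sqrt (D (e : ℤ))) := by ring
      _ = _ := by rw [Real.mul_self_sqrt (hD _)]
  have e2 : ∀ e ∈ range (3 ^ j), Real.sqrt (D (e : ℤ)) ^ 2 = D (e : ℤ) := fun e _ =>
    Real.sq_sqrt (hD _)
  have e3 : ∀ e ∈ range (3 ^ j), (|h (e : ℤ)| * Real.sqrt (D (e : ℤ))) ^ 2 =
      h (e : ℤ) ^ 2 * D (e : ℤ) := by
    intro e _
    rw [mul_pow, sq_abs, Real.sq_sqrt (hD _)]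
  rw [Finset.sum_congr rfl e1, Finset.sum_congr rfl e2, Finset.sum_congr rfl e3] at h1
  exact h1

theorem Yng_norm_le (q : ℕ) (f : ℤ → ℝ) (h : ℤ → E) (z : ℤ) :
    ‖cvE q f h z‖ ≤ avg q (fun e => |f e| * ‖h (z + e)‖) := by
  unfold cvE avg
  rw [norm_smul, Real.norm_of_nonneg (by positivity), one_div, inv_mul_eq_div]
  apply div_le_div_of_nonneg_right _ (by positivity)
  refine (norm_sum_le _ _).trans (le_of_eq ?_)
  refine Finset.sum_congr rfl fun e _ => ?_
  rw [norm_smul, Real.norm_eq_abs]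

theorem young {q : ℕ} (f : ℤ → ℝ) {h : ℤ → E} (hh : PerV q h) :
    l2 q (cvE q f h) ≤ avg q (fun x => f x ^ 2) * l1 q h ^ 2 := by
  have hn : Per q (fun x => ‖h x‖) := perV_norm hh
  have e4 : ∀ z, avg q (fun e => ‖h (z + e)‖) = l1 q h := by
    intro z
    rw [l1, ← Yng_shift hn z]
    congr 1
    funext x
    rw [add_comm]
  have h2 : ∀ z, ‖cvE q f h z‖ ^ 2 ≤ l1 q h * avg q (fun e => f e ^ 2 * ‖h (z + e)‖) := by
    intro z
    have h3 := Yng_cs q f (fun e => ‖h (z + e)‖) (fun e => norm_nonneg _)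
    rw [e4 z] at h3
    exact (pow_le_pow_left₀ (norm_nonneg _) (Yng_norm_le q f h z) 2).trans h3
  calc l2 q (cvE q f h) ≤ avg q (fun z => l1 q h * avg q (fun e => f e ^ 2 * ‖h (z + e)‖)) :=
        avg_mono h2
    _ = l1 q h * avg q (fun z => avg q (fun e => f e ^ 2 * ‖h (z + e)‖)) := avg_smul _ _ _
    _ = l1 q h * (l1 q h * avg q (fun e => f e ^ 2)) := by
        congr 1
        rw [Yng_comm]
        have e5 : (fun y => avg q (fun x => f y ^ 2 * ‖h (x + y)‖)) =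
            fun y => l1 q h * f y ^ 2 := by
          funext y
          rw [avg_smul, Yng_shift hn y, mul_comm]
          rfl
        rw [e5, avg_smul]
    _ = avg q (fun x => f x ^ 2) * l1 q h ^ 2 := by ring

/-- `cvE` is periodic. -/
theorem cvE_per {q m : ℕ} (f : ℤ → ℝ) {h : ℤ → E} (hh : PerV q h) : PerV q (cvE m f h) := by
  intro z
  unfold cvE
  congr 1
  refine Finset.sum_congr rfl fun e _ => ?_
  have : z + 3 ^ q + (e : ℤ) = z + e + 3 ^ q := by ring
  rw [this, hh]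

theorem cvE_red {j m : ℕ} (hj : j < m) {f : ℤ → ℝ} (hf : Per m f) {h : ℤ → E} (hh : PerV (j + 1) h)
    (hm : MeanZ j h) (z : ℤ) : cvE m f h z = cvE (j + 1) (dE m f j) h z := by
  -- the sum over the digits above `j`
  have h1 : cvE m f h z = cvE (j + 1) (cE (j + 1) m f) h z := by
    obtain ⟨r, rfl⟩ : ∃ r, m = j + 1 + r := ⟨m - (j + 1), by omega⟩
    have e1 : j + 1 + r - (j + 1) = r := by omega
    unfold cvE
    rw [Yng_split (j + 1) r (fun e => f e • h (z + e)), Finset.smul_sum, Finset.smul_sum]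
    refine Finset.sum_congr rfl fun B _ => ?_
    have e2 : ∀ W ∈ range (3 ^ r), f ((B : ℤ) + 3 ^ (j + 1) * (W : ℤ)) •
        h (z + ((B : ℤ) + 3 ^ (j + 1) * (W : ℤ))) =
        f ((B : ℤ) + 3 ^ (j + 1) * (W : ℤ)) • h (z + B) := by
      intro W _
      rw [← add_assoc, perV_mul hh]
    rw [Finset.sum_congr rfl e2, ← Finset.sum_smul, smul_smul, smul_smul]
    congr 1
    unfold cE
    rw [e1, pow_add _ (j + 1) r]
    have h3 : (3 : ℝ) ^ r ≠ 0 := by positivity
    have h4 : (3 : ℝ) ^ (j + 1) ≠ 0 := by positivity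
    field_simp
  -- the digit `j`
  have h2 : cvE (j + 1) (cE j m f) h z = 0 := by
    unfold cvE
    rw [Yng_split j 1 (fun e => cE j m f e • h (z + e))]
    have e2 : ∀ B ∈ range (3 ^ j), ∑ W ∈ range (3 ^ 1), cE j m f ((B : ℤ) + 3 ^ j * (W : ℤ)) •
        h (z + ((B : ℤ) + 3 ^ j * (W : ℤ))) = 0 := by
      intro B _
      have e3 : ∀ W ∈ range (3 ^ 1), cE j m f ((B : ℤ) + 3 ^ j * (W : ℤ)) •
          h (z + ((B : ℤ) + 3 ^ j * (W : ℤ))) =
          cE j m f (B : ℤ) • h (z + B + 3 ^ j * (W : ℤ)) := by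
        intro W _
        rw [per_mul (cE_per hj.le hf), add_assoc]
      rw [Finset.sum_congr rfl e3, ← Finset.smul_sum, pow_one, hm (z + B), smul_zero]
    rw [Finset.sum_congr rfl e2, Finset.sum_const_zero, smul_zero]
  have h3 : cvE (j + 1) (dE m f j) h z =
      cvE (j + 1) (cE (j + 1) m f) h z - cvE (j + 1) (cE j m f) h z := by
    unfold cvE
    rw [← smul_sub, ← Finset.sum_sub_distrib]
    congr 1
    refine Finset.sum_congr rfl fun e _ => ?_
    rw [← sub_smul]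
    rfl
  rw [h3, h2, sub_zero, h1]

theorem Yng_l2_up {q q' : ℕ} (hq : q ≤ q') {h : ℤ → E} (hh : PerV q h) : l2 q' h = l2 q h :=
  avg_up hq (per_comp (perV_norm hh) (fun t => t ^ 2))

/-- **Young's inequality with martingale differences.** -/
theorem yop {m : ℕ} {f : ℤ → ℝ} (hf : Per m f) {Kc b : ℝ} (hb : 0 ≤ b) (h0 : ∀ x, 0 ≤ f x)
    (h1 : ∀ x, f x ≤ Kc) (J : Finset ℕ) (hJ : ∀ j ∈ J, j < m) {h : ℕ → ℤ → E}
    (hh : ∀ j ∈ J, PerV (j + 1) (h j)) (hm : ∀ j ∈ J, MeanZ j (h j))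
    (hl : ∀ j ∈ J, l1 (j + 1) (h j) ≤ b) :
    ∑ j ∈ J, l2 m (cvE m f (h j)) ≤ Kc * avg m f * b ^ 2 := by
  have h2 : ∀ j ∈ J, l2 m (cvE m f (h j)) ≤ avg (j + 1) (fun x => dE m f j x ^ 2) * b ^ 2 := by
    intro j hj
    have hjm := hJ j hj
    have e : cvE m f (h j) = cvE (j + 1) (dE m f j) (h j) := by
      funext z
      exact cvE_red hjm hf (hh j hj) (hm j hj) z
    rw [e, Yng_l2_up hjm (cvE_per _ (hh j hj))]
    refine (young (dE m f j) (hh j hj)).trans ?_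
    apply mul_le_mul_of_nonneg_left _ (avg_nn fun x => sq_nonneg _)
    exact pow_le_pow_left₀ (l1_nn _ _) (hl j hj) 2
  calc ∑ j ∈ J, l2 m (cvE m f (h j)) ≤ ∑ j ∈ J, avg (j + 1) (fun x => dE m f j x ^ 2) * b ^ 2 :=
        Finset.sum_le_sum h2
    _ = (∑ j ∈ J, avg (j + 1) (fun x => dE m f j x ^ 2)) * b ^ 2 := by rw [Finset.sum_mul]
    _ ≤ (∑ j ∈ range m, avg (j + 1) (fun x => dE m f j x ^ 2)) * b ^ 2 := by
        apply mul_le_mul_of_nonneg_right _ (by positivity)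
        apply Finset.sum_le_sum_of_subset_of_nonneg
        · intro j hj
          exact mem_range.2 (hJ j hj)
        · intro j _ _
          exact avg_nn fun x => sq_nonneg _
    _ ≤ avg m (fun x => f x ^ 2) * b ^ 2 := by
        apply mul_le_mul_of_nonneg_right (sum_dE_le hf) (by positivity)
    _ ≤ Kc * avg m f * b ^ 2 := by
        apply mul_le_mul_of_nonneg_right _ (by positivity)
        rw [← avg_smul]
        apply avg_mono
        intro x
        rw [sq]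
        exact mul_le_mul_of_nonneg_right (h1 x) (h0 x)

end Pool.Agent.helper4.PDM
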